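import Pool.Agent.Lib.MP_48b749_nt.Two.Formula

/-!
# The bound for the analytic rank given by the L-function modulo two
-/

set_option autoImplicit false

open Polynomial

namespace Pool.Agent.BSDFF.Two

open Pool.Agent.Lib.MP_48b749_nt.Loc

/-- The multiplicity of the root `1` of `1 + X ^ d` modulo two is the `2`-part of `d`. -/
lemma rootMultiplicity_one_add (d : ℕ) (hd : d ≠ 0) :
    rootMultiplicity 1 (1 + X ^ d : (ZMod 2)[X]) = 2 ^ (padicValNat 2 d) := by
  obtain ⟨v, m, hm, rfl⟩ : ∃ v m : ℕ, ¬ 2 ∣ m ∧ d = 2 ^ v * m := by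
    obtain ⟨v, m, hm, h⟩ := Nat.exists_eq_pow_mul_and_not_dvd hd 2 (by norm_num)
    exact ⟨v, m, hm, h⟩
  have hm0 : m ≠ 0 := by
    rintro rfl
    exact hm (dvd_zero 2)
  have hval : padicValNat 2 (2 ^ v * m) = v := by
    rw [padicValNat.mul (pow_ne_zero v two_ne_zero) hm0, padicValNat.prime_pow,
      padicValNat.eq_zero_of_not_dvd hm, add_zero]
  rw [hval]
  have h1 : (1 + X ^ (2 ^ v * m) : (ZMod 2)[X]) = (1 + X ^ m) ^ (2 ^ v) := by
    rw [add_pow_char_pow, one_pow, ← pow_mul, mul_comm m]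
  have hne : (1 + X ^ m : (ZMod 2)[X]) ≠ 0 := by
    intro h
    have h2 := congrArg (coeff · 0) h
    simp [hm0.symm] at h2
  have h2 : rootMultiplicity 1 (1 + X ^ m : (ZMod 2)[X]) = 1 := by
    have hroot : IsRoot (1 + X ^ m : (ZMod 2)[X]) 1 := by
      rw [IsRoot.def, eval_add, eval_one, eval_pow, eval_X, one_pow]
      rfl
    have hpos : 0 < rootMultiplicity 1 (1 + X ^ m : (ZMod 2)[X]) :=
      (rootMultiplicity_pos hne).mpr hroot
    have hder : ¬ IsRoot (derivative (1 + X ^ m : (ZMod 2)[X])) 1 := by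
      rw [IsRoot.def, derivative_add, derivative_one, zero_add, derivative_X_pow, eval_mul,
        eval_pow, eval_X, one_pow, mul_one, eval_C]
      intro h
      exact hm ((ZMod.natCast_eq_zero_iff m 2).mp h)
    have hlt : ¬ 1 < rootMultiplicity 1 (1 + X ^ m : (ZMod 2)[X]) := by
      intro h
      exact hder ((one_lt_rootMultiplicity_iff_isRoot hne).mp h).2
    omega
  rw [h1]
  have h3 : ∀ j : ℕ, rootMultiplicity 1 ((1 + X ^ m : (ZMod 2)[X]) ^ j) = j := by
    intro j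
    induction j with
    | zero => rw [pow_zero]; simp
    | succ j ih =>
      rw [pow_succ, rootMultiplicity_mul (mul_ne_zero (pow_ne_zero _ hne) hne), ih, h2]
  exact h3 _

lemma one_add_ne_zero (d : ℕ) (hd : d ≠ 0) : (1 + X ^ d : (ZMod 2)[X]) ≠ 0 := by
  intro h
  have h2 := congrArg (coeff · 0) h
  simp [hd.symm] at h2

lemma rootMultiplicity_pow' {f : (ZMod 2)[X]} (hf : f ≠ 0) (j : ℕ) :
    rootMultiplicity 1 (f ^ j) = j * rootMultiplicity 1 f := by
  induction j with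
  | zero => rw [pow_zero]; simp
  | succ j ih =>
    rw [pow_succ, rootMultiplicity_mul (mul_ne_zero (pow_ne_zero _ hf) hf), ih]
    ring

lemma rootMultiplicity_prod {ι : Type} (S : Finset ι) (f : ι → (ZMod 2)[X])
    (hf : ∀ i ∈ S, f i ≠ 0) :
    rootMultiplicity 1 (∏ i ∈ S, f i) = ∑ i ∈ S, rootMultiplicity 1 (f i) := by
  classical
  induction S using Finset.induction_on with
  | empty => simp
  | insert i S hi ih =>
    have h1 : ∀ j ∈ S, f j ≠ 0 := fun j hj => hf j (Finset.mem_insert_of_mem hj)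
    rw [Finset.prod_insert hi, Finset.sum_insert hi, rootMultiplicity_mul, ih h1]
    exact mul_ne_zero (hf i (Finset.mem_insert_self _ _)) (Finset.prod_ne_zero_iff.mpr h1)

variable {k : Type} [Field k] [Finite k]

/-- A bound for the exponent of `1 - q T` in `L(T, W)`. -/
theorem exponent_le (h2 : (2 : k) ≠ 0) (W : WeierstrassCurve (RatFunc k)) (S : Finset k[X])
    (hS : ∀ π ∈ S, π.Monic ∧ Irreducible π) (e : k[X] → ℕ) (einf : ℕ)
    (hL : PowerSeries.map (Int.castRingHom (ZMod 2)) (LSeries k W) * oneAdd 1 ^ 4 =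
      oneAdd 1 ^ einf * ∏ π ∈ S, oneAdd π.natDegree ^ (e π)) {n : ℕ} {g : ℤ[X]}
    (hg : (((1 - C (Nat.card k : ℤ) * X) ^ n * g : ℤ[X]) : PowerSeries ℤ) = LSeries k W) :
    n + 4 ≤ einf + ∑ π ∈ S, e π * 2 ^ (padicValNat 2 π.natDegree) := by
  have h1 := congrArg (PowerSeries.map (Int.castRingHom (ZMod 2))) hg
  have hq : (Int.castRingHom (ZMod 2)) (Nat.card k : ℤ) = 1 := by
    simp [card_odd k h2]
  rw [coe_map, Polynomial.map_mul, Polynomial.map_pow, Polynomial.map_sub, Polynomial.map_one,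
    Polynomial.map_mul, Polynomial.map_C, Polynomial.map_X, hq, C_1, one_mul] at h1
  rw [← h1] at hL
  have h3 : ((1 - X) ^ n * g.map (Int.castRingHom (ZMod 2)) * (1 + X ^ 1) ^ 4 : (ZMod 2)[X]) =
      (1 + X ^ 1) ^ einf * ∏ π ∈ S, (1 + X ^ π.natDegree) ^ (e π) := by
    have h4 : ∏ π ∈ S, ((((1 + X ^ π.natDegree) ^ (e π) : (ZMod 2)[X])) : PowerSeries (ZMod 2)) =
        ∏ π ∈ S, oneAdd π.natDegree ^ (e π) := by
      apply Finset.prod_congr rfl
      intro π _
      rw [Polynomial.coe_pow, coe_oneAdd]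
    rw [← Polynomial.coe_inj, Polynomial.coe_mul _ ((1 + X ^ 1) ^ 4),
      Polynomial.coe_mul ((1 + X ^ 1) ^ einf), coe_prod', h4,
      Polynomial.coe_pow (φ := (1 + X ^ 1 : (ZMod 2)[X])) 4,
      Polynomial.coe_pow (φ := (1 + X ^ 1 : (ZMod 2)[X])) einf, coe_oneAdd, hL]
  have hR : ((1 + X ^ 1) ^ einf * ∏ π ∈ S, (1 + X ^ π.natDegree) ^ (e π) : (ZMod 2)[X]) ≠ 0 := by
    refine mul_ne_zero (pow_ne_zero _ (one_add_ne_zero 1 one_ne_zero))
      (Finset.prod_ne_zero_iff.mpr fun π hπ => pow_ne_zero _ (one_add_ne_zero _ ?_))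
    exact (hS π hπ).2.natDegree_pos.ne'
  have hsum : rootMultiplicity 1 ((1 + X ^ 1) ^ einf *
      ∏ π ∈ S, (1 + X ^ π.natDegree) ^ (e π) : (ZMod 2)[X]) =
      einf + ∑ π ∈ S, e π * 2 ^ (padicValNat 2 π.natDegree) := by
    rw [rootMultiplicity_mul hR, rootMultiplicity_pow' (one_add_ne_zero 1 one_ne_zero),
      rootMultiplicity_one_add 1 one_ne_zero, rootMultiplicity_prod]
    · congr 1
      · simp
      · apply Finset.sum_congr rfl
        intro π hπ
        have h0 := (hS π hπ).2.natDegree_pos.ne'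
        rw [rootMultiplicity_pow' (one_add_ne_zero _ h0), rootMultiplicity_one_add _ h0]
    · intro π hπ
      exact pow_ne_zero _ (one_add_ne_zero _ (hS π hπ).2.natDegree_pos.ne')
  rw [← hsum, le_rootMultiplicity_iff hR, ← h3]
  refine ⟨g.map (Int.castRingHom (ZMod 2)), ?_⟩
  have h4 : (X - C 1 : (ZMod 2)[X]) = 1 - X := by
    have h20 : (2 : (ZMod 2)[X]) = 0 := two_eq_zero
    rw [C_1]
    linear_combination (X - 1) * h20
  have h5 : (1 + X ^ 1 : (ZMod 2)[X]) = 1 - X := by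
    have h20 : (2 : (ZMod 2)[X]) = 0 := two_eq_zero
    linear_combination X * h20
  rw [h4, h5]
  ring

/-- The bound for the analytic rank. -/
theorem analyticRank_le (h2 : (2 : k) ≠ 0) (W : WeierstrassCurve (RatFunc k)) (S : Finset k[X])
    (hS : ∀ π ∈ S, π.Monic ∧ Irreducible π) (e : k[X] → ℕ) (einf : ℕ)
    (hL : PowerSeries.map (Int.castRingHom (ZMod 2)) (LSeries k W) * oneAdd 1 ^ 4 =
      oneAdd 1 ^ einf * ∏ π ∈ S, oneAdd π.natDegree ^ (e π)) :
    analyticRank k W ≤ einf + ∑ π ∈ S, e π * 2 ^ (padicValNat 2 π.natDegree) - 4 := by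
  unfold analyticRank
  rcases Set.eq_empty_or_nonempty {n : ℕ | ∃ g : ℤ[X],
      (((1 - C (Nat.card k : ℤ) * X) ^ n * g : ℤ[X]) : PowerSeries ℤ) = LSeries k W} with h | h
  · rw [h, csSup_empty]
    exact bot_le
  · apply csSup_le h
    rintro n ⟨g, hg⟩
    have := exponent_le h2 W S hS e einf hL hg
    omega

end Pool.Agent.BSDFF.Two
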