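import Pool.Agent.Lib.MP_48b749_nt.Two.Formula

/-!
# Local factors of `y ^ 2 = x * (x ^ 2 + a * x + b)`, `a, b ∈ k[t]`
-/

set_option autoImplicit false

open Polynomial WithZero Multiplicative

namespace Pool.Agent.BSDFF.Two

open Pool.Agent.Lib.MP_48b749_nt.Loc

section

variable {k : Type} [Field k]

/-- The curve `y ^ 2 = x ^ 3 + a x ^ 2 + b x` over `k(t)`, `a, b ∈ k[t]`. -/
noncomputable def curve (a b : k[X]) : WeierstrassCurve (RatFunc k) :=
  ⟨0, algebraMap k[X] (RatFunc k) a, 0, algebraMap k[X] (RatFunc k) b, 0⟩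

lemma two_Δ {R : Type} [CommRing R] (A B : R) :
    (⟨0, A, 0, B, 0⟩ : WeierstrassCurve R).Δ = 16 * B ^ 2 * (A ^ 2 - 4 * B) := by
  simp only [WeierstrassCurve.Δ, WeierstrassCurve.b₂, WeierstrassCurve.b₄, WeierstrassCurve.b₆,
    WeierstrassCurve.b₈]
  ring

lemma two_c4 {R : Type} [CommRing R] (A B : R) :
    (⟨0, A, 0, B, 0⟩ : WeierstrassCurve R).c₄ = 16 * (A ^ 2 - 3 * B) := by
  simp only [WeierstrassCurve.c₄, WeierstrassCurve.b₂, WeierstrassCurve.b₄]
  ring

lemma curve_Δ (a b : k[X]) : (curve a b).Δ =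
    algebraMap k[X] (RatFunc k) (16 * b ^ 2 * (a ^ 2 - 4 * b)) := by
  rw [curve, two_Δ]
  simp only [map_mul, map_sub, map_pow, map_ofNat]

lemma curve_c4 (a b : k[X]) : (curve a b).c₄ =
    algebraMap k[X] (RatFunc k) (16 * (a ^ 2 - 3 * b)) := by
  rw [curve, two_c4]
  simp only [map_mul, map_sub, map_pow, map_ofNat]

lemma hasTwoTorsion_curve (a b : k[X]) : HasTwoTorsion (curve a b) := by
  refine ⟨0, ?_⟩
  simp [curve, WeierstrassCurve.b₆]

lemma isUnit_sixteen (h2 : (2 : k) ≠ 0) : IsUnit (16 : k[X]) := by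
  have h : (16 : k[X]) = C (2 ^ 4) := by
    rw [C_pow, C_ofNat]; norm_num
  rw [h]
  exact isUnit_C.mpr (pow_ne_zero _ h2).isUnit

lemma curve_Δ_ne_zero (h2 : (2 : k) ≠ 0) {a b : k[X]} (hb : b ≠ 0) (hb' : a ^ 2 - 4 * b ≠ 0) :
    (curve a b).Δ ≠ 0 := by
  rw [curve_Δ]
  intro h
  exact mul_ne_zero (mul_ne_zero (isUnit_sixteen h2).ne_zero (pow_ne_zero 2 hb)) hb'
    ((FaithfulSMul.algebraMap_eq_zero_iff _ _).mp h)

/-- The integral model at a finite place. -/
noncomputable def model (v : Place k (RatFunc k)) (hX : RatFunc.X ∈ v.ring) (a b : k[X]) :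
    WeierstrassCurve v.ring :=
  ⟨0, polyHom v hX a, 0, polyHom v hX b, 0⟩

lemma model_map (v : Place k (RatFunc k)) (hX : RatFunc.X ∈ v.ring) (a b : k[X]) :
    (model v hX a b).map (algebraMap v.ring (RatFunc k)) =
      (1 : WeierstrassCurve.VariableChange (RatFunc k)) • curve a b := by
  rw [one_smul]
  ext <;> simp [model, curve, coe_polyHom]

lemma model_Δ (v : Place k (RatFunc k)) (hX : RatFunc.X ∈ v.ring) (a b : k[X]) :
    (model v hX a b).Δ = polyHom v hX (16 * b ^ 2 * (a ^ 2 - 4 * b)) := by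
  rw [model, two_Δ]
  simp only [map_mul, map_sub, map_pow, map_ofNat]

lemma model_c4 (v : Place k (RatFunc k)) (hX : RatFunc.X ∈ v.ring) (a b : k[X]) :
    (model v hX a b).c₄ = polyHom v hX (16 * (a ^ 2 - 3 * b)) := by
  rw [model, two_c4]
  simp only [map_mul, map_sub, map_pow, map_ofNat]

lemma isUnit_two_place (h2 : (2 : k) ≠ 0) (v : Place k (RatFunc k)) : IsUnit (2 : v.ring) := by
  have hmem : algebraMap k (RatFunc k) 2⁻¹ ∈ v.ring := v.const_mem _
  refine IsUnit.of_mul_eq_one ⟨_, hmem⟩ ?_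
  apply Subtype.ext
  change (2 : RatFunc k) * algebraMap k (RatFunc k) 2⁻¹ = 1
  rw [show (2 : RatFunc k) = algebraMap k (RatFunc k) 2 from (map_ofNat _ 2).symm, ← map_mul,
    mul_inv_cancel₀ h2, map_one]

lemma mem_max_iff (v : Place k (RatFunc k)) (hX : RatFunc.X ∈ v.ring) {π : k[X]}
    (hπ : Irreducible π) (hn : ¬ IsUnit (polyHom v hX π)) (f : k[X]) :
    polyHom v hX f ∈ IsLocalRing.maximalIdeal v.ring ↔ π ∣ f := by
  rw [IsLocalRing.mem_maximalIdeal, mem_nonunits_iff, polyHom_unit_iff v hX hπ hn, not_not]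

variable [Finite k]

lemma residue_finite_placeOf {π : k[X]} (hπ : Irreducible π) :
    Finite (IsLocalRing.ResidueField (placeOf π hπ).ring) :=
  residue_finite (placeOf π hπ) (X_mem_placeOf π hπ) hπ (nonunit_placeOf π hπ)

lemma residue_finite_infty : Finite (IsLocalRing.ResidueField (placeInfty k).ring) :=
  Finite.of_surjective _ constMap_infty_surjective

/-- Good reduction at the primes not dividing `b * (a ^ 2 - 4 * b)`. -/
theorem locTwo_good_place (h2 : (2 : k) ≠ 0) {a b : k[X]} (hb : b ≠ 0)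
    (hb' : a ^ 2 - 4 * b ≠ 0) {π : k[X]} (hπ : Irreducible π) (h1 : ¬ π ∣ b)
    (h1' : ¬ π ∣ a ^ 2 - 4 * b) : locTwo (placeOf π hπ).ring (curve a b) = (1 + X) ^ 2 := by
  have hfin := residue_finite_placeOf hπ
  set v := placeOf π hπ with hv
  have hX := X_mem_placeOf π hπ
  have hn := nonunit_placeOf π hπ
  have hΔ : (model v hX a b).Δ ∉ IsLocalRing.maximalIdeal v.ring := by
    rw [model_Δ, mem_max_iff v hX hπ hn]
    intro h
    rcases hπ.prime.dvd_or_dvd h with h | h
    · rcases hπ.prime.dvd_or_dvd h with h | h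
      · exact hπ.not_isUnit (isUnit_of_dvd_unit h (isUnit_sixteen h2))
      · exact h1 (hπ.prime.dvd_of_dvd_pow h)
    · exact h1' h
  exact (locTwo_of_model v.ring (isUnit_two_place h2 v) (hasTwoTorsion_curve a b)
    (curve_Δ_ne_zero h2 hb hb') (model v hX a b) 1 (model_map v hX a b)
    (Or.inl fun h => hΔ (Ideal.pow_le_self (by norm_num) h))).1 hΔ

/-- Multiplicative reduction at the primes dividing `b * (a ^ 2 - 4 * b)` but not `a`. -/
theorem locTwo_mult_place (h2 : (2 : k) ≠ 0) {a b : k[X]} (hb : b ≠ 0)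
    (hb' : a ^ 2 - 4 * b ≠ 0) {π : k[X]} (hπ : Irreducible π) (h1 : ¬ π ∣ a)
    (h1' : π ∣ b ∨ π ∣ a ^ 2 - 4 * b) : locTwo (placeOf π hπ).ring (curve a b) = 1 + X := by
  have hfin := residue_finite_placeOf hπ
  set v := placeOf π hπ with hv
  have hX := X_mem_placeOf π hπ
  have hn := nonunit_placeOf π hπ
  have hΔ : (model v hX a b).Δ ∈ IsLocalRing.maximalIdeal v.ring := by
    rw [model_Δ, mem_max_iff v hX hπ hn]
    rcases h1' with h | h
    · exact Dvd.dvd.mul_right (Dvd.dvd.mul_left (dvd_pow h two_ne_zero) _) _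
    · exact Dvd.dvd.mul_left h _
  have hc : (model v hX a b).c₄ ∉ IsLocalRing.maximalIdeal v.ring := by
    rw [model_c4, mem_max_iff v hX hπ hn]
    intro h
    rcases hπ.prime.dvd_or_dvd h with h | h
    · exact hπ.not_isUnit (isUnit_of_dvd_unit h (isUnit_sixteen h2))
    · apply h1
      rcases h1' with h' | h'
      · have h3 : π ∣ (a ^ 2 - 3 * b) + 3 * b := dvd_add h (Dvd.dvd.mul_left h' _)
        rw [sub_add_cancel] at h3
        exact hπ.prime.dvd_of_dvd_pow h3
      · have h3 : π ∣ 4 * (a ^ 2 - 3 * b) - 3 * (a ^ 2 - 4 * b) :=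
          dvd_sub (Dvd.dvd.mul_left h _) (Dvd.dvd.mul_left h' _)
        have h4 : 4 * (a ^ 2 - 3 * b) - 3 * (a ^ 2 - 4 * b) = a ^ 2 := by ring
        rw [h4] at h3
        exact hπ.prime.dvd_of_dvd_pow h3
  exact (locTwo_of_model v.ring (isUnit_two_place h2 v) (hasTwoTorsion_curve a b)
    (curve_Δ_ne_zero h2 hb hb') (model v hX a b) 1 (model_map v hX a b)
    (Or.inr fun h => hc (Ideal.pow_le_self (by norm_num) h))).2.1 hΔ hc

/-- Additive reduction at infinity when `b` has odd degree, larger than twice the degree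
of `a`. -/
theorem locTwo_infty (h2 : (2 : k) ≠ 0) {a b : k[X]} (hodd : Odd b.natDegree)
    (hlt : 2 * a.natDegree < b.natDegree) : locTwo (placeInfty k).ring (curve a b) = 1 := by
  have hfin := residue_finite_infty (k := k)
  have h4 : (4 : k) ≠ 0 := by
    have : (4 : k) = 2 ^ 2 := by norm_num
    rw [this]; exact pow_ne_zero _ h2
  have h16 : (16 : k) ≠ 0 := by
    have : (16 : k) = 2 ^ 4 := by norm_num
    rw [this]; exact pow_ne_zero _ h2
  have hb : b ≠ 0 := by
    rintro rfl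
    simp at hodd
  set m := b.natDegree with hm
  have hdb' : (a ^ 2 - 4 * b).natDegree = m := by
    rw [natDegree_sub_eq_right_of_natDegree_lt, natDegree_ofNat_mul h4]
    rw [natDegree_ofNat_mul h4, natDegree_pow]
    exact hlt
  have hb' : a ^ 2 - 4 * b ≠ 0 := by
    intro h
    rw [h, natDegree_zero] at hdb'
    rw [← hdb'] at hodd
    simp at hodd
  set N := (m + 3) / 4 with hN
  have hN1 : m < 4 * N := by
    rw [Nat.odd_iff] at hodd; omega
  have hN2 : 4 * N ≤ m + 3 := by omega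
  have hXN : (RatFunc.X : RatFunc k) ^ N ≠ 0 := pow_ne_zero _ RatFunc.X_ne_zero
  have hXinv : ∀ j : ℕ, ((RatFunc.X : RatFunc k) ^ N)⁻¹ ^ j ≠ 0 := fun j =>
    pow_ne_zero _ (inv_ne_zero hXN)
  have hdX : ∀ j : ℕ, (((RatFunc.X : RatFunc k) ^ N)⁻¹ ^ j).intDegree = -((j * N : ℕ) : ℤ) := by
    intro j
    rw [inv_pow, ← pow_mul, RatFunc.intDegree_inv, ← RatFunc.algebraMap_X, ← map_pow,
      RatFunc.intDegree_polynomial, natDegree_X_pow, mul_comm N j]
  -- valuations of the coefficients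
  have hval : ∀ (j : ℕ) (f : k[X]), f ≠ 0 →
      vv (placeInfty k).ring ((RatFunc.X ^ N)⁻¹ ^ j * algebraMap k[X] (RatFunc k) f) =
        exp ((f.natDegree : ℤ) - (j * N : ℕ)) := by
    intro j f hf
    have hf' : algebraMap k[X] (RatFunc k) f ≠ 0 := fun h =>
      hf ((FaithfulSMul.algebraMap_eq_zero_iff _ _).mp h)
    rw [vv_infty _ (mul_ne_zero (hXinv j) hf'), RatFunc.intDegree_mul (hXinv j) hf', hdX,
      RatFunc.intDegree_polynomial]
    congr 1
    ring
  have hmem : ∀ (j : ℕ) (f : k[X]), f.natDegree ≤ j * N →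
      (RatFunc.X ^ N)⁻¹ ^ j * algebraMap k[X] (RatFunc k) f ∈ (placeInfty k).ring := by
    intro j f hf
    rw [mem_placeInfty_iff]
    by_cases hf0 : f = 0
    · left; rw [hf0, map_zero, mul_zero]
    · right
      have hf' : algebraMap k[X] (RatFunc k) f ≠ 0 := fun h =>
        hf0 ((FaithfulSMul.algebraMap_eq_zero_iff _ _).mp h)
      rw [RatFunc.intDegree_mul (hXinv j) hf', hdX, RatFunc.intDegree_polynomial]
      omega
  let D : WeierstrassCurve.VariableChange (RatFunc k) := ⟨Units.mk0 (RatFunc.X ^ N) hXN, 0, 0, 0⟩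
  have hu : ((D.u⁻¹ : (RatFunc k)ˣ) : RatFunc k) = (RatFunc.X ^ N)⁻¹ := by
    simp [D]
  have hma : (RatFunc.X ^ N)⁻¹ ^ 2 * algebraMap k[X] (RatFunc k) a ∈ (placeInfty k).ring :=
    hmem 2 a (by omega)
  have hmb : (RatFunc.X ^ N)⁻¹ ^ 4 * algebraMap k[X] (RatFunc k) b ∈ (placeInfty k).ring :=
    hmem 4 b (by omega)
  let I : WeierstrassCurve (placeInfty k).ring := ⟨0, ⟨_, hma⟩, 0, ⟨_, hmb⟩, 0⟩
  have hI : I.map (algebraMap (placeInfty k).ring (RatFunc k)) = D • curve a b := by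
    ext
    · rw [WeierstrassCurve.variableChange_a₁]; simp [D, I, curve]
    · rw [WeierstrassCurve.variableChange_a₂, hu]
      change (RatFunc.X ^ N)⁻¹ ^ 2 * algebraMap k[X] (RatFunc k) a = _
      simp [D, curve]
    · rw [WeierstrassCurve.variableChange_a₃]; simp [D, I, curve]
    · rw [WeierstrassCurve.variableChange_a₄, hu]
      change (RatFunc.X ^ N)⁻¹ ^ 4 * algebraMap k[X] (RatFunc k) b = _
      simp [D, curve]
    · rw [WeierstrassCurve.variableChange_a₆]; simp [D, I, curve]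
  have hΔv : vv (placeInfty k).ring (algebraMap (placeInfty k).ring (RatFunc k) I.Δ) =
      exp ((3 * m : ℤ) - 12 * N) := by
    have h1 : algebraMap (placeInfty k).ring (RatFunc k) I.Δ = (D • curve a b).Δ := by
      rw [← hI, WeierstrassCurve.map_Δ]
    have hP0 : (16 * b ^ 2 * (a ^ 2 - 4 * b)) ≠ 0 :=
      mul_ne_zero (mul_ne_zero (isUnit_sixteen h2).ne_zero (pow_ne_zero 2 hb)) hb'
    have hP : (16 * b ^ 2 * (a ^ 2 - 4 * b)).natDegree = 3 * m := by
      rw [natDegree_mul (mul_ne_zero (isUnit_sixteen h2).ne_zero (pow_ne_zero 2 hb)) hb', hdb',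
        natDegree_ofNat_mul h16, natDegree_pow]
      ring
    rw [h1, WeierstrassCurve.variableChange_Δ, hu, curve_Δ, hval 12 _ hP0, hP, exp_inj]
    push_cast
    ring
  have hcv : vv (placeInfty k).ring (algebraMap (placeInfty k).ring (RatFunc k) I.c₄) < 1 := by
    have h1 : algebraMap (placeInfty k).ring (RatFunc k) I.c₄ = (D • curve a b).c₄ := by
      rw [← hI, WeierstrassCurve.map_c₄]
    by_cases hP0 : (16 * (a ^ 2 - 3 * b)) = 0
    · rw [h1, WeierstrassCurve.variableChange_c₄, curve_c4, hP0, map_zero, mul_zero, map_zero]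
      exact zero_lt_one
    · have hP : (16 * (a ^ 2 - 3 * b)).natDegree ≤ m := by
        rw [natDegree_ofNat_mul h16]
        refine (natDegree_sub_le _ _).trans (max_le ?_ ?_)
        · rw [natDegree_pow]; omega
        · have : (3 : k[X]) = C 3 := (C_ofNat 3).symm
          rw [this]
          exact natDegree_C_mul_le _ _
      rw [h1, WeierstrassCurve.variableChange_c₄, hu, curve_c4, hval 4 _ hP0, ← exp_zero,
        exp_lt_exp]
      push_cast
      omega
  have hΔm : I.Δ ∈ IsLocalRing.maximalIdeal (placeInfty k).ring := by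
    rw [← val_lt_one_iff (placeInfty k).ring (K := RatFunc k)]
    change vv (placeInfty k).ring _ < 1
    rw [hΔv, ← exp_zero, exp_lt_exp]
    omega
  have hcm : I.c₄ ∈ IsLocalRing.maximalIdeal (placeInfty k).ring := by
    rw [← val_lt_one_iff (placeInfty k).ring (K := RatFunc k)]
    exact hcv
  refine (locTwo_of_model (placeInfty k).ring (isUnit_two_place h2 _) (hasTwoTorsion_curve a b)
    (curve_Δ_ne_zero h2 hb hb') I D hI (Or.inl ?_)).2.2 hΔm hcm
  rw [← val_gt_iff (placeInfty k).ring (K := RatFunc k)]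
  change _ < vv (placeInfty k).ring _
  rw [hΔv, exp_lt_exp]
  omega

end

end Pool.Agent.BSDFF.Two
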