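import Mathlib

/-!
# Descent by a 2-isogeny over `k(t)`

`a, b ∈ k[t]`, `b` and `a ^ 2 - 4 * b` irreducible of odd degree, `k` a field of characteristic
different from `2`. The curve `y ^ 2 = x * (x ^ 2 + a * x + b)` has no `k(t)`-point with `x ≠ 0`.
-/

namespace Pool.Agent.Lib.MP_48b749_nt.Two

open Polynomial

variable {k : Type*} [Field k]

/-- A non-square constant stays a non-square modulo a prime of odd degree. -/
theorem isSquare_of_dvd {Q f g : k[X]} (hQ : Irreducible Q) (hodd : Odd Q.natDegree) {c : k}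
    (h : Q ∣ f ^ 2 - C c * g ^ 2) (hg : ¬ Q ∣ g) : IsSquare c := by
  have : Fact (Irreducible Q) := ⟨hQ⟩
  let L := AdjoinRoot Q
  have hfin : FiniteDimensional k L := (AdjoinRoot.powerBasis hQ.ne_zero).finite
  have hrank : Module.finrank k L = Q.natDegree := by
    rw [(AdjoinRoot.powerBasis hQ.ne_zero).finrank, AdjoinRoot.powerBasis_dim]
  have hg0 : AdjoinRoot.mk Q g ≠ 0 := fun h0 => hg (AdjoinRoot.mk_eq_zero.mp h0)
  have h1 : (AdjoinRoot.mk Q f) ^ 2 = algebraMap k L c * (AdjoinRoot.mk Q g) ^ 2 := by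
    have h2 := AdjoinRoot.mk_eq_zero.mpr h
    rw [map_sub, map_pow, map_mul, map_pow, sub_eq_zero] at h2
    rw [h2]
    rfl
  set α : L := AdjoinRoot.mk Q f / AdjoinRoot.mk Q g with hα
  have h3 : α ^ 2 = algebraMap k L c := by
    rw [hα, div_pow, h1, mul_div_assoc, div_self (pow_ne_zero _ hg0), mul_one]
  have hint : IsIntegral k α := IsIntegral.of_finite k α
  have hdvd : (minpoly k α).natDegree ∣ Module.finrank k L := minpoly.degree_dvd hint
  have hdvd2 : minpoly k α ∣ X ^ 2 - C c := by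
    apply minpoly.dvd
    simp [h3]
  have hle : (minpoly k α).natDegree ≤ 2 := by
    have h4 := natDegree_le_of_dvd hdvd2 (X_pow_sub_C_ne_zero (by norm_num) c)
    rwa [natDegree_X_pow_sub_C] at h4
  have hpos : 0 < (minpoly k α).natDegree := minpoly.natDegree_pos hint
  have hne2 : (minpoly k α).natDegree ≠ 2 := by
    intro h2
    rw [hrank, h2] at hdvd
    rw [Nat.odd_iff] at hodd
    omega
  have h1' : (minpoly k α).natDegree = 1 := by omega
  obtain ⟨e, he⟩ := (minpoly.natDegree_eq_one_iff).mp h1'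
  refine ⟨e, ?_⟩
  apply (algebraMap k L).injective
  rw [← h3, ← he, sq, map_mul]

theorem C_mul_inv {c : k} (hc : c ≠ 0) : (C c * C c⁻¹ : k[X]) = 1 := by
  rw [← C_mul, mul_inv_cancel₀ hc, C_1]

/-- Coprime factors of a fourth power. -/
theorem exists_pow_four {A B Z : k[X]} (hAB : IsCoprime A B) (h : A * B = Z ^ 4) (hZ : Z ≠ 0) :
    ∃ (c : k) (s r : k[X]), c ≠ 0 ∧ A = C c * s ^ 4 ∧ B = C c⁻¹ * r ^ 4 ∧ Z = s * r := by
  obtain ⟨s, hs⟩ := exists_associated_pow_of_mul_eq_pow' hAB h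
  obtain ⟨ε, hε⟩ := hs
  obtain ⟨c, hc, hcε⟩ := Polynomial.isUnit_iff.mp ε.isUnit
  have hc0 : c ≠ 0 := hc.ne_zero
  have hA : A = C c * s ^ 4 := by rw [hcε, ← hε, mul_comm]
  have hs0 : s ≠ 0 := by
    rintro rfl
    rw [hA] at h
    apply hZ
    have : Z ^ 4 = 0 := by rw [← h]; ring
    exact (pow_eq_zero_iff (by norm_num)).mp this
  have hdvd : s ^ 4 ∣ Z ^ 4 := ⟨C c * B, by rw [← h, hA]; ring⟩
  have hsZ : s ∣ Z := (UniqueFactorizationMonoid.pow_dvd_pow_iff_dvd (by norm_num)).mp hdvd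
  obtain ⟨r, rfl⟩ := hsZ
  refine ⟨c, s, r, hc0, hA, ?_, rfl⟩
  have h1 : C c * s ^ 4 * B = s ^ 4 * r ^ 4 := by rw [← hA, h]; ring
  have h2 : C c * B = r ^ 4 := by
    apply mul_left_cancel₀ (pow_ne_zero 4 hs0)
    rw [← h1]; ring
  rw [← h2, ← mul_assoc, mul_comm (C c⁻¹), C_mul_inv hc0, one_mul]

theorem exists_sq {A B Y : k[X]} (hAB : IsCoprime A B) (h : A * B = Y ^ 2) (hA0 : A ≠ 0) :
    ∃ (c : k) (s r : k[X]), c ≠ 0 ∧ A = C c * s ^ 2 ∧ B = C c * r ^ 2 := by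
  obtain ⟨s, hs⟩ := exists_associated_pow_of_mul_eq_pow' hAB h
  obtain ⟨ε, hε⟩ := hs
  obtain ⟨c, hc, hcε⟩ := Polynomial.isUnit_iff.mp ε.isUnit
  have hc0 : c ≠ 0 := hc.ne_zero
  have hA : A = C c * s ^ 2 := by rw [hcε, ← hε, mul_comm]
  have hs0 : s ≠ 0 := by
    rintro rfl
    apply hA0
    rw [hA]; ring
  have hdvd : s ^ 2 ∣ Y ^ 2 := ⟨C c * B, by rw [← h, hA]; ring⟩
  have hsY : s ∣ Y := (UniqueFactorizationMonoid.pow_dvd_pow_iff_dvd (by norm_num)).mp hdvd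
  obtain ⟨r, rfl⟩ := hsY
  refine ⟨c, s, C c⁻¹ * r, hc0, hA, ?_⟩
  have h1 : C c * s ^ 2 * B = s ^ 2 * r ^ 2 := by rw [← hA, h]; ring
  have h2 : C c * B = r ^ 2 := by
    apply mul_left_cancel₀ (pow_ne_zero 2 hs0)
    rw [← h1]; ring
  rw [mul_pow, ← h2]
  have h3 : C c * (C c⁻¹ ^ 2 * (C c * B)) = (C c * C c⁻¹) ^ 2 * B := by ring
  rw [h3, C_mul_inv hc0]
  ring

theorem four_ne (h2 : (2 : k) ≠ 0) : (4 : k) ≠ 0 := by
  have : (4 : k) = 2 * 2 := by norm_num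
  rw [this]
  exact mul_ne_zero h2 h2

theorem isUnit_two (h2 : (2 : k) ≠ 0) : IsUnit (2 : k[X]) := by
  have : (2 : k[X]) = C 2 := (C_ofNat 2).symm
  rw [this]
  exact Polynomial.isUnit_C.mpr h2.isUnit

theorem isUnit_four (h2 : (2 : k) ≠ 0) : IsUnit (4 : k[X]) := by
  have : (4 : k[X]) = 2 * 2 := by norm_num
  rw [this]
  exact (isUnit_two h2).mul (isUnit_two h2)

/-- A prime dividing twice something divides it. -/
theorem dvd_of_dvd_two_mul (h2 : (2 : k) ≠ 0) {p f : k[X]} (h : p ∣ 2 * f) : p ∣ f := by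
  obtain ⟨u, hu⟩ := isUnit_two h2
  rw [← hu] at h
  exact (Units.dvd_mul_left).mp h

theorem natDegree_four_mul (h2 : (2 : k) ≠ 0) (b : k[X]) : (4 * b).natDegree = b.natDegree := by
  have : (4 : k[X]) = C 4 := (C_ofNat 4).symm
  rw [this]
  exact natDegree_C_mul (four_ne h2)

theorem isCoprime_of_prod {p S A B : k[X]} (hp : Prime p) (hprod : A * B = p * S ^ 4)
    (hS : S ≠ 0) (h : ∀ Q : k[X], Prime Q → Q ∣ A → Q ∣ B → ¬ Q ∣ S) : IsCoprime A B := by
  apply isCoprime_of_prime_dvd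
  · rintro ⟨rfl, -⟩
    rw [zero_mul] at hprod
    exact mul_ne_zero hp.ne_zero (pow_ne_zero 4 hS) hprod.symm
  · intro Q hQ hA hB
    have hQS := h Q hQ hA hB
    have h1 : Q ∣ p * S ^ 4 := by rw [← hprod]; exact Dvd.dvd.mul_right hA B
    rcases hQ.dvd_or_dvd h1 with h2 | h2
    · have hass : Associated Q p := hQ.irreducible.associated_of_dvd hp.irreducible h2
      have hpA : p ∣ A := hass.symm.dvd.trans hA
      have hpB : p ∣ B := hass.symm.dvd.trans hB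
      have h3 : p * p ∣ p * S ^ 4 := by rw [← hprod]; exact mul_dvd_mul hpA hpB
      have h4 : p ∣ S ^ 4 := (mul_dvd_mul_iff_left hp.ne_zero).mp h3
      exact h p hp hpA hpB (hp.dvd_of_dvd_pow h4)
    · exact hQS (hQ.dvd_of_dvd_pow h2)

/-- The hypotheses force `2 * deg a < deg b`. -/
theorem two_mul_natDegree_lt (h2 : (2 : k) ≠ 0) {a b : k[X]} (hodd : Odd b.natDegree)
    (hodd' : Odd (a ^ 2 - 4 * b).natDegree) : 2 * a.natDegree < b.natDegree := by
  by_contra hcon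
  push Not at hcon
  have hne : b.natDegree ≠ 2 * a.natDegree := by
    intro h
    rw [Nat.odd_iff] at hodd
    omega
  have hlt : b.natDegree < 2 * a.natDegree := lt_of_le_of_ne hcon hne
  have h4 := natDegree_four_mul h2 b
  have h5 : (a ^ 2 - 4 * b).natDegree = (a ^ 2).natDegree := by
    apply natDegree_sub_eq_left_of_natDegree_lt
    rw [natDegree_pow]
    omega
  rw [natDegree_pow] at h5
  rw [Nat.odd_iff] at hodd'
  omega

/-- A solution of the homogeneous space attached to the constant `c`. -/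
def Sol (a b : k[X]) (c : k) (u Z w : k[X]) : Prop :=
  c ≠ 0 ∧ Z ≠ 0 ∧ IsCoprime u Z ∧
    C c * w ^ 2 = (C c * u ^ 2) ^ 2 + a * (C c * u ^ 2) * Z ^ 2 + b * Z ^ 4

theorem Sol.isSquare (h2 : (2 : k) ≠ 0) {a b : k[X]}
    (hb' : Irreducible (a ^ 2 - 4 * b)) (hodd' : Odd (a ^ 2 - 4 * b).natDegree)
    {c : k} {u Z w : k[X]} (h : Sol a b c u Z w) : IsSquare c := by
  obtain ⟨hc, hZ, hcop, heq⟩ := h
  set b' := a ^ 2 - 4 * b with hb'def
  have hbp' : Prime b' := hb'.prime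
  have key1 : (2 * (C c * u ^ 2) + a * Z ^ 2) ^ 2 - C c * (2 * w) ^ 2 = b' * Z ^ 4 := by
    have : C c * (2 * w) ^ 2 = 4 * (C c * w ^ 2) := by ring
    rw [this, heq, hb'def]; ring
  apply isSquare_of_dvd hb' hodd' (f := 2 * (C c * u ^ 2) + a * Z ^ 2) (g := 2 * w) ⟨_, key1⟩
  intro hw
  have h1 : b' ∣ (2 * (C c * u ^ 2) + a * Z ^ 2) ^ 2 := by
    have h3 : (2 * (C c * u ^ 2) + a * Z ^ 2) ^ 2 = b' * Z ^ 4 + C c * (2 * w) ^ 2 := by
      rw [← key1]; ring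
    rw [h3]
    exact dvd_add (dvd_mul_right _ _) (Dvd.dvd.mul_left (dvd_pow hw (by norm_num)) _)
  have h2' : b' ∣ 2 * (C c * u ^ 2) + a * Z ^ 2 := hbp'.dvd_of_dvd_pow h1
  have h3 : b' ^ 2 ∣ b' * Z ^ 4 := by
    rw [← key1]
    exact dvd_sub (pow_dvd_pow_of_dvd h2' 2)
      (Dvd.dvd.mul_left (pow_dvd_pow_of_dvd hw 2) _)
  have h4 : b' ∣ Z ^ 4 := by
    rw [sq] at h3
    exact (mul_dvd_mul_iff_left hb'.ne_zero).mp h3
  have h5 : b' ∣ Z := hbp'.dvd_of_dvd_pow h4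
  have h6 : b' ∣ 2 * (C c * u ^ 2) := by
    have := dvd_sub h2' (Dvd.dvd.mul_left (dvd_pow h5 (two_ne_zero)) a)
    simpa using this
  have h7 : b' ∣ C c * u ^ 2 := dvd_of_dvd_two_mul h2 h6
  have h8 : b' ∣ u ^ 2 := by
    rcases hbp'.dvd_or_dvd h7 with h | h
    · exact absurd (isUnit_of_dvd_unit h (isUnit_C.mpr hc.isUnit)) hb'.not_isUnit
    · exact h
  have h9 : b' ∣ u := hbp'.dvd_of_dvd_pow h8
  exact hb'.not_isUnit (hcop.isUnit_of_dvd' h9 h5)

/-- Second half of the descent. -/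
theorem second_half (h2 : (2 : k) ≠ 0) {a b : k[X]} (hb : Irreducible b)
    (hdeg : 2 * a.natDegree < b.natDegree) {u r s : k[X]} (hus : IsCoprime u s)
    (hs : s ≠ 0)
    (heq : (2 * u) ^ 2 = (r ^ 2 - a * s ^ 2) ^ 2 - 4 * b * s ^ 4) :
    ∃ (c : k) (f g : k[X]), Sol a b c g f r ∧ f.natDegree < r.natDegree + s.natDegree := by
  have hbp : Prime b := hb.prime
  have h4u : IsUnit (4 : k[X]) := isUnit_four h2
  -- wlog on the sign of `u`
  have main : ∀ u : k[X], IsCoprime u s → (2 * u) ^ 2 = (r ^ 2 - a * s ^ 2) ^ 2 - 4 * b * s ^ 4 →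
      b ∣ r ^ 2 - a * s ^ 2 - 2 * u →
      ∃ (c : k) (f g : k[X]), Sol a b c g f r ∧ f.natDegree < r.natDegree + s.natDegree := by
    intro u hus heq hdvd
    have hprod : (r ^ 2 - a * s ^ 2 - 2 * u) * (r ^ 2 - a * s ^ 2 + 2 * u) = (b * 4) * s ^ 4 := by
      linear_combination (-1 : k[X]) * heq
    have hp4 : Prime (b * 4) := by
      obtain ⟨v, hv⟩ := h4u
      rw [← hv]
      exact (Associated.prime_iff ⟨v, rfl⟩).mp hbp
    have hcop : IsCoprime (r ^ 2 - a * s ^ 2 - 2 * u) (r ^ 2 - a * s ^ 2 + 2 * u) := by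
      apply isCoprime_of_prod hp4 hprod hs
      intro Q hQ hA hB hQs
      have h1 : Q ∣ 2 * (2 * u) := by
        have := dvd_sub hB hA
        have h3 : (r ^ 2 - a * s ^ 2 + 2 * u) - (r ^ 2 - a * s ^ 2 - 2 * u) = 2 * (2 * u) := by ring
        rwa [h3] at this
      have h3 : Q ∣ u := dvd_of_dvd_two_mul h2 (dvd_of_dvd_two_mul h2 h1)
      exact hQ.not_isUnit (hus.isUnit_of_dvd' h3 hQs)
    obtain ⟨m, hm⟩ : b * 4 ∣ r ^ 2 - a * s ^ 2 - 2 * u := by
      rwa [h4u.mul_right_dvd]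
    have hm2 : m * (r ^ 2 - a * s ^ 2 + 2 * u) = s ^ 4 := by
      apply mul_left_cancel₀ hp4.ne_zero
      rw [← mul_assoc, ← hm, hprod]
    have hcop2 : IsCoprime m (r ^ 2 - a * s ^ 2 + 2 * u) := by
      rw [hm] at hcop
      exact hcop.of_mul_left_right
    obtain ⟨c, f, g, hc, hf, hg, hfg⟩ := exists_pow_four hcop2 hm2 hs
    have hsum : 2 * (r ^ 2 - a * s ^ 2) = b * 4 * (C c * f ^ 4) + C c⁻¹ * g ^ 4 := by
      rw [← hf, ← hg, ← hm]; ring
    have hf0 : f ≠ 0 := by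
      rintro rfl
      exact hs (by rw [hfg, zero_mul])
    have hg0 : g ≠ 0 := by
      rintro rfl
      exact hs (by rw [hfg, mul_zero])
    have h2c : (2 * c : k) ≠ 0 := mul_ne_zero h2 hc
    have hC2 : (C (2 : k) : k[X]) = 2 := C_ofNat 2
    have hI : (C c * C c⁻¹ : k[X]) = 1 := C_mul_inv hc
    have hI2 : (2 * C (2 : k)⁻¹ : k[X]) = 1 := by
      rw [← hC2]; exact C_mul_inv h2
    have hr2 : r ^ 2 = C (2 * c)⁻¹ * g ^ 4 + a * f ^ 2 * g ^ 2 + C (2 * c) * b * f ^ 4 := by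
      have h20 : (2 : k[X]) ≠ 0 := (isUnit_two h2).ne_zero
      apply mul_left_cancel₀ h20
      rw [mul_inv, C_mul, C_mul, hC2]
      rw [hfg] at hsum
      linear_combination hsum + (-(C c⁻¹ * g ^ 4)) * hI2
    refine ⟨(2 * c)⁻¹, f, g, ⟨inv_ne_zero h2c, hf0, ?_, ?_⟩, ?_⟩
    · -- coprimality of `g` and `f`
      have h5 : IsCoprime (C c * f ^ 4) (C c⁻¹ * g ^ 4) := by rw [← hf, ← hg]; exact hcop2
      have h6 : IsCoprime (f ^ 4) (g ^ 4) := h5.of_mul_left_right.of_mul_right_right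
      exact ((IsCoprime.pow_iff (by norm_num) (by norm_num)).mp h6).symm
    · rw [hr2]
      have hI3 : (C (2 * c) * C (2 * c)⁻¹ : k[X]) = 1 := C_mul_inv h2c
      linear_combination (b * f ^ 4) * hI3
    · -- degrees
      have hdS : s.natDegree = f.natDegree + g.natDegree := by
        rw [hfg, natDegree_mul hf0 hg0]
      rw [hdS]
      by_contra hcon
      have hr0 : r.natDegree = 0 := by omega
      have hg1 : g.natDegree = 0 := by omega
      have hd1 : (C (2 * c) * b * f ^ 4).natDegree = b.natDegree + 4 * f.natDegree := by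
        rw [mul_assoc, natDegree_C_mul h2c, natDegree_mul hb.ne_zero (pow_ne_zero 4 hf0),
          natDegree_pow]
      have hd2 : (r ^ 2 - C (2 * c)⁻¹ * g ^ 4 - a * f ^ 2 * g ^ 2).natDegree <
          b.natDegree + 4 * f.natDegree := by
        have e1 : (r ^ 2).natDegree ≤ 0 := by rw [natDegree_pow, hr0]
        have e2 : (C (2 * c)⁻¹ * g ^ 4).natDegree ≤ 0 := by
          refine (natDegree_C_mul_le _ _).trans ?_
          rw [natDegree_pow, hg1]
        have e3 : (a * f ^ 2 * g ^ 2).natDegree ≤ a.natDegree + 2 * f.natDegree := by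
          refine (natDegree_mul_le).trans ?_
          refine (Nat.add_le_add_right natDegree_mul_le _).trans ?_
          rw [natDegree_pow, natDegree_pow, hg1]
          omega
        have e4 := natDegree_sub_le (r ^ 2 - C (2 * c)⁻¹ * g ^ 4) (a * f ^ 2 * g ^ 2)
        have e5 := natDegree_sub_le (r ^ 2) (C (2 * c)⁻¹ * g ^ 4)
        omega
      have hd3 : r ^ 2 - C (2 * c)⁻¹ * g ^ 4 - a * f ^ 2 * g ^ 2 = C (2 * c) * b * f ^ 4 := by
        rw [hr2]; ring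
      rw [hd3, hd1] at hd2
      exact lt_irrefl _ hd2
  have hb_or : b ∣ (r ^ 2 - a * s ^ 2 - 2 * u) * (r ^ 2 - a * s ^ 2 + 2 * u) := by
    refine ⟨4 * s ^ 4, ?_⟩
    linear_combination (-1 : k[X]) * heq
  rcases hbp.dvd_or_dvd hb_or with h | h
  · exact main u hus heq h
  · refine main (-u) hus.neg_left ?_ ?_
    · rw [← heq]; ring
    · rw [mul_neg, sub_neg_eq_add]; exact h

theorem Sol.step (h2 : (2 : k) ≠ 0) {a b : k[X]} (hb : Irreducible b)
    (hb' : Irreducible (a ^ 2 - 4 * b)) (hodd : Odd b.natDegree)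
    (hodd' : Odd (a ^ 2 - 4 * b).natDegree) {c : k} {u Z w : k[X]} (h : Sol a b c u Z w) :
    ∃ (c' : k) (u' Z' w' : k[X]), Sol a b c' u' Z' w' ∧ Z'.natDegree < Z.natDegree := by
  have hdeg := two_mul_natDegree_lt h2 hodd hodd'
  have hcsq := h.isSquare h2 hb' hodd'
  obtain ⟨hc, hZ, hcop, heq⟩ := h
  have hbp : Prime b := hb.prime
  have hbp' : Prime (a ^ 2 - 4 * b) := hb'.prime
  obtain ⟨e, rfl⟩ := hcsq
  have he : e ≠ 0 := fun h => hc (by rw [h, mul_zero])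
  -- wlog on the sign of `w`
  have main : ∀ u w : k[X], IsCoprime u Z → w ^ 2 = u ^ 4 + a * u ^ 2 * Z ^ 2 + b * Z ^ 4 →
      (a ^ 2 - 4 * b) ∣ 2 * u ^ 2 + a * Z ^ 2 - 2 * w →
      ∃ (c' : k) (u' Z' w' : k[X]), Sol a b c' u' Z' w' ∧ Z'.natDegree < Z.natDegree := by
    intro u w hcop heq hdvd
    have hprod : (2 * u ^ 2 + a * Z ^ 2 - 2 * w) * (2 * u ^ 2 + a * Z ^ 2 + 2 * w) =
        (a ^ 2 - 4 * b) * Z ^ 4 := by
      linear_combination (-4 : k[X]) * heq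
    have hcopAB : IsCoprime (2 * u ^ 2 + a * Z ^ 2 - 2 * w) (2 * u ^ 2 + a * Z ^ 2 + 2 * w) := by
      apply isCoprime_of_prod hbp' hprod hZ
      intro Q hQ hA hB hQZ
      have h1 : Q ∣ (2 * u ^ 2 + a * Z ^ 2 - 2 * w) + (2 * u ^ 2 + a * Z ^ 2 + 2 * w) -
          2 * (a * Z ^ 2) :=
        dvd_sub (dvd_add hA hB) (Dvd.dvd.mul_left (Dvd.dvd.mul_left (dvd_pow hQZ two_ne_zero) _) _)
      have h3 : (2 * u ^ 2 + a * Z ^ 2 - 2 * w) + (2 * u ^ 2 + a * Z ^ 2 + 2 * w) -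
          2 * (a * Z ^ 2) = 2 * (2 * u ^ 2) := by ring
      rw [h3] at h1
      have h4 : Q ∣ u ^ 2 := dvd_of_dvd_two_mul h2 (dvd_of_dvd_two_mul h2 h1)
      exact hQ.not_isUnit (hcop.isUnit_of_dvd' (hQ.dvd_of_dvd_pow h4) hQZ)
    obtain ⟨m, hm⟩ := hdvd
    have hm2 : m * (2 * u ^ 2 + a * Z ^ 2 + 2 * w) = Z ^ 4 := by
      apply mul_left_cancel₀ hbp'.ne_zero
      rw [← mul_assoc, ← hm, hprod]
    have hcop2 : IsCoprime m (2 * u ^ 2 + a * Z ^ 2 + 2 * w) := by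
      rw [hm] at hcopAB
      exact hcopAB.of_mul_left_right
    obtain ⟨c1, s, r, hc1, hs, hr, hsr⟩ := exists_pow_four hcop2 hm2 hZ
    have hI : (C c1 * C c1⁻¹ : k[X]) = 1 := C_mul_inv hc1
    have hs0 : s ≠ 0 := by
      rintro rfl
      exact hZ (by rw [hsr, zero_mul])
    have hr0 : r ≠ 0 := by
      rintro rfl
      exact hZ (by rw [hsr, mul_zero])
    have hsum : 2 * (2 * u ^ 2 + a * Z ^ 2) = (a ^ 2 - 4 * b) * (C c1 * s ^ 4) + C c1⁻¹ * r ^ 4 := by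
      rw [← hs, ← hr, ← hm]; ring
    have hkey : C c1 * (2 * u) ^ 2 = (r ^ 2 - C c1 * a * s ^ 2) ^ 2 - 4 * C c1 ^ 2 * b * s ^ 4 := by
      rw [hsr] at hsum
      linear_combination (C c1) * hsum + r ^ 4 * hI
    -- `c1` is a square
    have hus : IsCoprime u s := by
      rw [hsr] at hcop
      exact hcop.of_mul_right_left
    have hc1sq : IsSquare c1 := by
      apply isSquare_of_dvd hb hodd (f := r ^ 2 - C c1 * a * s ^ 2) (g := 2 * u)
        ⟨4 * C c1 ^ 2 * s ^ 4, by rw [hkey]; ring⟩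
      intro hbu
      have hbu' : b ∣ u := dvd_of_dvd_two_mul h2 hbu
      have h1 : b ∣ (r ^ 2 - C c1 * a * s ^ 2) ^ 2 := by
        have h3 : (r ^ 2 - C c1 * a * s ^ 2) ^ 2 =
            C c1 * (2 * u) ^ 2 + b * (4 * C c1 ^ 2 * s ^ 4) := by rw [hkey]; ring
        rw [h3]
        exact dvd_add (Dvd.dvd.mul_left (dvd_pow hbu two_ne_zero) _) (dvd_mul_right _ _)
      have h3 : b ∣ r ^ 2 - C c1 * a * s ^ 2 := hbp.dvd_of_dvd_pow h1
      have h4 : b * b ∣ b * (4 * C c1 ^ 2 * s ^ 4) := by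
        have h5 : b * (4 * C c1 ^ 2 * s ^ 4) =
            (r ^ 2 - C c1 * a * s ^ 2) ^ 2 - C c1 * (2 * u) ^ 2 := by rw [hkey]; ring
        rw [h5, ← sq b]
        exact dvd_sub (pow_dvd_pow_of_dvd h3 2) (Dvd.dvd.mul_left (pow_dvd_pow_of_dvd hbu 2) _)
      have h6 : b ∣ 4 * C c1 ^ 2 * s ^ 4 := (mul_dvd_mul_iff_left hb.ne_zero).mp h4
      have h7 : b ∣ s ^ 4 := by
        have hunit : IsUnit (4 * C c1 ^ 2 : k[X]) :=
          (isUnit_four h2).mul ((isUnit_C.mpr hc1.isUnit).pow 2)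
        exact (hunit.dvd_mul_left).mp h6
      have h8 : b ∣ s := hbp.dvd_of_dvd_pow h7
      exact hb.not_isUnit (hus.isUnit_of_dvd' hbu' h8)
    obtain ⟨e1, rfl⟩ := hc1sq
    have he1 : e1 ≠ 0 := fun h => hc1 (by rw [h, mul_zero])
    have hCe1 : IsUnit (C e1 : k[X]) := isUnit_C.mpr he1.isUnit
    have hus1 : IsCoprime (C e1 * u) (C e1 * s) :=
      (isCoprime_mul_unit_left hCe1 u s).mpr hus
    have heq1 : (2 * (C e1 * u)) ^ 2 =
        (r ^ 2 - a * (C e1 * s) ^ 2) ^ 2 - 4 * b * (C e1 * s) ^ 4 := by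
      rw [C_mul] at hkey
      linear_combination hkey
    obtain ⟨c', f, g, hsol, hlt⟩ := second_half h2 hb hdeg hus1
      (mul_ne_zero hCe1.ne_zero hs0) heq1
    refine ⟨c', g, f, r, hsol, ?_⟩
    rw [natDegree_C_mul he1] at hlt
    rw [hsr, natDegree_mul hs0 hr0]
    omega
  -- normalise `c = 1`
  have hcop1 : IsCoprime (C e * u) Z :=
    (isCoprime_mul_unit_left_left (isUnit_C.mpr he.isUnit) u Z).mpr hcop
  have heq1 : (C e * w) ^ 2 = (C e * u) ^ 4 + a * (C e * u) ^ 2 * Z ^ 2 + b * Z ^ 4 := by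
    rw [C_mul] at heq
    linear_combination heq
  have hb_or : (a ^ 2 - 4 * b) ∣ (2 * (C e * u) ^ 2 + a * Z ^ 2 - 2 * (C e * w)) *
      (2 * (C e * u) ^ 2 + a * Z ^ 2 + 2 * (C e * w)) := by
    refine ⟨Z ^ 4, ?_⟩
    linear_combination (-4 : k[X]) * heq1
  rcases hbp'.dvd_or_dvd hb_or with h | h
  · exact main (C e * u) (C e * w) hcop1 heq1 h
  · refine main (C e * u) (-(C e * w)) hcop1 ?_ ?_
    · rw [← heq1]; ring
    · rw [mul_neg, sub_neg_eq_add]; exact h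

/-- **The descent.** -/
theorem no_solution (h2 : (2 : k) ≠ 0) {a b : k[X]} (hb : Irreducible b)
    (hb' : Irreducible (a ^ 2 - 4 * b)) (hodd : Odd b.natDegree)
    (hodd' : Odd (a ^ 2 - 4 * b).natDegree) (n : ℕ) :
    ∀ (c : k) (u Z w : k[X]), Z.natDegree = n → ¬ Sol a b c u Z w := by
  induction n using Nat.strong_induction_on with
  | _ n ih =>
    intro c u Z w hn h
    obtain ⟨c', u', Z', w', h', hlt⟩ := h.step h2 hb hb' hodd hodd'
    exact ih _ (hn ▸ hlt) c' u' Z' w' rfl h'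

/-- No integral points of the homogenised equation. -/
theorem no_integral (h2 : (2 : k) ≠ 0) {a b : k[X]} (hb : Irreducible b)
    (hb' : Irreducible (a ^ 2 - 4 * b)) (hodd : Odd b.natDegree)
    (hodd' : Odd (a ^ 2 - 4 * b).natDegree) {n Z y : k[X]} (hn : n ≠ 0) (hZ : Z ≠ 0)
    (hcop : IsCoprime n Z) (h : n * (n ^ 2 + a * n * Z ^ 2 + b * Z ^ 4) = y ^ 2) : False := by
  have hbp : Prime b := hb.prime
  by_cases hbn : b ∣ n
  · obtain ⟨m, rfl⟩ := hbn
    have hm : m ≠ 0 := by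
      rintro rfl
      exact hn (mul_zero _)
    have hby : b ∣ y := by
      apply hbp.dvd_of_dvd_pow (n := 2)
      rw [← h]
      exact Dvd.dvd.mul_right (dvd_mul_right _ _) _
    obtain ⟨y1, rfl⟩ := hby
    have h1 : m * (b * m ^ 2 + a * m * Z ^ 2 + Z ^ 4) = y1 ^ 2 := by
      apply mul_left_cancel₀ (pow_ne_zero 2 hb.ne_zero)
      linear_combination h
    have hmZ : IsCoprime m Z := hcop.of_mul_left_right
    have hcop1 : IsCoprime m (b * m ^ 2 + a * m * Z ^ 2 + Z ^ 4) := by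
      have h3 : IsCoprime m (Z ^ 4 + m * (b * m + a * Z ^ 2)) :=
        (hmZ.pow_right (n := 4)).add_mul_left_right _
      have h4 : b * m ^ 2 + a * m * Z ^ 2 + Z ^ 4 = Z ^ 4 + m * (b * m + a * Z ^ 2) := by ring
      rw [h4]; exact h3
    obtain ⟨c, u, w, hc, hu, hw⟩ := exists_sq hcop1 h1 hm
    have hI : (C c * C c⁻¹ : k[X]) = 1 := C_mul_inv hc
    have hu0 : u ≠ 0 := by
      rintro rfl
      exact hm (by rw [hu]; ring)
    have huZ : IsCoprime u Z := by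
      rw [hu] at hmZ
      exact (IsCoprime.pow_left_iff (by norm_num)).mp hmZ.of_mul_left_right
    refine no_solution h2 hb hb' hodd hodd' _ c⁻¹ Z u w rfl
      ⟨inv_ne_zero hc, hu0, huZ.symm, ?_⟩
    rw [hu] at hw
    have h5 : (C c * C c⁻¹ : k[X]) ^ 2 = 1 := by rw [hI, one_pow]
    linear_combination (-(C c⁻¹) ^ 2) * hw + (-(C c⁻¹ * w ^ 2)) * hI +
      (a * C c⁻¹ * u ^ 2 * Z ^ 2) * hI + (b * u ^ 4) * h5
  · have hcop1 : IsCoprime n (n ^ 2 + a * n * Z ^ 2 + b * Z ^ 4) := by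
      have h3 : IsCoprime n (b * Z ^ 4) :=
        IsCoprime.mul_right ((hb.coprime_iff_not_dvd).mpr hbn).symm (hcop.pow_right (n := 4))
      have h4 : n ^ 2 + a * n * Z ^ 2 + b * Z ^ 4 = b * Z ^ 4 + n * (n + a * Z ^ 2) := by ring
      rw [h4]; exact h3.add_mul_left_right _
    obtain ⟨c, u, w, hc, hu, hw⟩ := exists_sq hcop1 h hn
    have huZ : IsCoprime u Z := by
      rw [hu] at hcop
      exact (IsCoprime.pow_left_iff (by norm_num)).mp hcop.of_mul_left_right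
    refine no_solution h2 hb hb' hodd hodd' _ c u Z w rfl ⟨hc, hZ, huZ, ?_⟩
    rw [← hw, hu]

variable {K : Type*} [Field K] [Algebra k[X] K] [IsFractionRing k[X] K]

/-- **The rational points.** -/
theorem x_eq_zero (h2 : (2 : k) ≠ 0) {a b : k[X]} (hb : Irreducible b)
    (hb' : Irreducible (a ^ 2 - 4 * b)) (hodd : Odd b.natDegree)
    (hodd' : Odd (a ^ 2 - 4 * b).natDegree) {x y : K}
    (h : y ^ 2 = x ^ 3 + algebraMap k[X] K a * x ^ 2 + algebraMap k[X] K b * x) : x = 0 := by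
  by_contra hx0
  obtain ⟨n, d, hnd, hx⟩ := IsFractionRing.exists_reduced_fraction (A := k[X]) (K := K) x
  have hinj : Function.Injective (algebraMap k[X] K) := IsFractionRing.injective k[X] K
  have hd0 : (d : k[X]) ≠ 0 := nonZeroDivisors.coe_ne_zero d
  have hcop : IsCoprime n (d : k[X]) := hnd.isCoprime
  set δ : K := algebraMap k[X] K d with hδ
  have hδ0 : δ ≠ 0 := by
    rw [hδ]
    exact fun h0 => hd0 (hinj (by rw [h0, map_zero]))
  have hxd : x = algebraMap k[X] K n / δ := by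
    rw [← hx, IsFractionRing.mk'_eq_div]
  have hn0 : n ≠ 0 := by
    rintro rfl
    rw [map_zero, zero_div] at hxd
    exact hx0 hxd
  -- `d ^ 2 * y` is a polynomial
  have hsq : (δ ^ 2 * y) ^ 2 = algebraMap k[X] K (d * (n * (n ^ 2 + a * n * d + b * d ^ 2))) := by
    rw [mul_pow, h, hxd]
    simp only [map_mul, map_add, map_pow, ← hδ]
    field_simp
  obtain ⟨Y, hY⟩ := IsIntegrallyClosed.exists_algebraMap_eq_of_isIntegral_pow (R := k[X])
    (K := K) (x := δ ^ 2 * y) (n := 2) (by norm_num) (by rw [hsq]; exact isIntegral_algebraMap)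
  have hY2 : (d : k[X]) * (n * (n ^ 2 + a * n * d + b * d ^ 2)) = Y ^ 2 := by
    apply hinj
    rw [← hsq, ← hY, map_pow]
  have hcop1 : IsCoprime (d : k[X]) (n * (n ^ 2 + a * n * d + b * d ^ 2)) := by
    apply IsCoprime.mul_right hcop.symm
    have h3 : IsCoprime (d : k[X]) (n ^ 2 + d * (a * n + b * d)) :=
      (hcop.symm.pow_right (n := 2)).add_mul_left_right _
    have h4 : n ^ 2 + a * n * d + b * d ^ 2 = n ^ 2 + d * (a * n + b * d) := by ring
    rw [h4]; exact h3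
  obtain ⟨e, Z, r, he, hZ, hr⟩ := exists_sq hcop1 hY2 hd0
  have hI : (C e * C e⁻¹ : k[X]) = 1 := C_mul_inv he
  have hZ0 : Z ≠ 0 := by
    rintro rfl
    exact hd0 (by rw [hZ]; ring)
  have he' : IsUnit (C e⁻¹ : k[X]) := isUnit_C.mpr (inv_ne_zero he).isUnit
  have hcop2 : IsCoprime (C e⁻¹ * n) Z := by
    rw [isCoprime_mul_unit_left_left he']
    rw [hZ] at hcop
    exact (IsCoprime.pow_right_iff (by norm_num)).mp hcop.of_mul_right_right
  refine no_integral h2 hb hb' hodd hodd' (n := C e⁻¹ * n) (Z := Z) (y := C e⁻¹ * r)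
    (mul_ne_zero he'.ne_zero hn0) hZ0 hcop2 ?_
  rw [hZ] at hr
  have h5 : (C e * C e⁻¹ : k[X]) ^ 2 = 1 := by rw [hI, one_pow]
  linear_combination (C e⁻¹ ^ 3) * hr + (C e⁻¹ ^ 2 * r ^ 2) * hI -
    (a * C e⁻¹ ^ 2 * n ^ 2 * Z ^ 2) * hI - (C e⁻¹ * n * b * Z ^ 4) * h5

end Pool.Agent.Lib.MP_48b749_nt.Two
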