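import Pool.Agent.Lib.MP_48b749_nt.Two.General
import Pool.Agent.Lib.MP_48b749_nt.Two.TwoDescent

/-!
# The family `b`, `a ^ 2 - 4 * b` irreducible of odd degree
-/

set_option autoImplicit false

open Polynomial

namespace Pool.Agent.BSDFF.Two

open Pool.Agent.Lib.MP_48b749_nt.Loc WeierstrassCurve

variable {k : Type} [Field k]

/-- `b` and `a ^ 2 - 4 * b` are irreducible of odd degree, `a` is not zero. -/
structure FamA (a b : k[X]) : Prop where
  ha : a ≠ 0
  hb : Irreducible b
  hb' : Irreducible (a ^ 2 - 4 * b)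
  odd : Odd b.natDegree
  odd' : Odd (a ^ 2 - 4 * b).natDegree

namespace FamA

variable {a b : k[X]}

lemma lt (h2 : (2 : k) ≠ 0) (h : FamA a b) : 2 * a.natDegree < b.natDegree :=
  Pool.Agent.Lib.MP_48b749_nt.Two.two_mul_natDegree_lt h2 h.odd h.odd'

lemma degree' (h2 : (2 : k) ≠ 0) (h : FamA a b) :
    (a ^ 2 - 4 * b).natDegree = b.natDegree := by
  have h4 := Pool.Agent.Lib.MP_48b749_nt.Two.natDegree_four_mul h2 b
  rw [natDegree_sub_eq_right_of_natDegree_lt, h4]
  rw [h4, natDegree_pow]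
  exact h.lt h2

lemma b_not_dvd (h2 : (2 : k) ≠ 0) (h : FamA a b) : ¬ b ∣ a := by
  intro hd
  have h1 := natDegree_le_of_dvd hd h.ha
  have h3 := h.lt h2
  omega

lemma b'_not_dvd (h2 : (2 : k) ≠ 0) (h : FamA a b) : ¬ a ^ 2 - 4 * b ∣ a := by
  intro hd
  have h1 := natDegree_le_of_dvd hd h.ha
  rw [h.degree' h2] at h1
  have h3 := h.lt h2
  omega

lemma b_not_dvd_b' (h2 : (2 : k) ≠ 0) (h : FamA a b) : ¬ b ∣ a ^ 2 - 4 * b := by
  intro hd
  apply h.b_not_dvd h2
  apply h.hb.prime.dvd_of_dvd_pow (n := 2)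
  have h1 : b ∣ (a ^ 2 - 4 * b) + 4 * b := dvd_add hd (Dvd.intro_left _ rfl)
  rwa [sub_add_cancel] at h1

/-- Non-constant `j`. -/
lemma j_ne (h2 : (2 : k) ≠ 0) (h : FamA a b) (c : k) :
    (curve a b).c₄ ^ 3 ≠ algebraMap k (RatFunc k) c * (curve a b).Δ := by
  intro heq
  rw [curve_c4, curve_Δ, IsScalarTower.algebraMap_apply k k[X] (RatFunc k), ← map_pow,
    ← map_mul] at heq
  have h1 := FaithfulSMul.algebraMap_injective k[X] (RatFunc k) heq
  have h3 : b ∣ (16 * (a ^ 2 - 3 * b)) ^ 3 := by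
    rw [h1]
    exact ⟨algebraMap k k[X] c * (16 * b * (a ^ 2 - 4 * b)), by ring⟩
  have h4 := h.hb.prime.dvd_of_dvd_pow h3
  have h5 : b ∣ a ^ 2 - 3 * b := by
    rcases h.hb.prime.dvd_or_dvd h4 with h6 | h6
    · exact absurd (isUnit_of_dvd_unit h6 (isUnit_sixteen h2)) h.hb.not_isUnit
    · exact h6
  apply h.b_not_dvd h2
  apply h.hb.prime.dvd_of_dvd_pow (n := 2)
  have h7 : b ∣ (a ^ 2 - 3 * b) + 3 * b := dvd_add h5 (Dvd.intro_left _ rfl)
  rwa [sub_add_cancel] at h7

/-- The rational points. -/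
theorem point (h2 : (2 : k) ≠ 0) (h : FamA a b) (P : (curve a b).toAffine.Point) :
    P = 0 ∨ ∃ h0 : (curve a b).toAffine.Nonsingular 0 0, P = Affine.Point.some 0 0 h0 := by
  match P with
  | .zero => exact Or.inl rfl
  | .some x y hns =>
    right
    have heq := (Affine.equation_iff _ _).mp hns.1
    simp only [curve] at heq
    have hx : x = 0 := by
      apply Pool.Agent.Lib.MP_48b749_nt.Two.x_eq_zero h2 h.hb h.hb' h.odd h.odd' (y := y)
      linear_combination heq
    have hy : y = 0 := by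
      rw [hx] at heq
      have h3 : y ^ 2 = 0 := by linear_combination heq
      exact (pow_eq_zero_iff two_ne_zero).mp h3
    subst hx hy
    exact ⟨hns, rfl⟩

/-- The group has order two. -/
theorem card (h2 : (2 : k) ≠ 0) (h : FamA a b) : Nat.card (curve a b).toAffine.Point = 2 := by
  have hns : (curve a b).toAffine.Nonsingular 0 0 := by
    rw [Affine.nonsingular_zero]
    refine ⟨rfl, Or.inr ?_⟩
    change algebraMap k[X] (RatFunc k) b ≠ 0
    exact fun h0 => h.hb.ne_zero ((FaithfulSMul.algebraMap_eq_zero_iff _ _).mp h0)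
  have h1 : (Set.univ : Set (curve a b).toAffine.Point) = {0, Affine.Point.some 0 0 hns} := by
    ext P
    simp only [Set.mem_univ, Set.mem_insert_iff, Set.mem_singleton_iff, true_iff]
    rcases h.point h2 P with h3 | ⟨_, h3⟩
    · exact Or.inl h3
    · exact Or.inr h3
  rw [← Set.ncard_univ, h1, Set.ncard_pair]
  exact fun h0 => Affine.Point.some_ne_zero hns h0.symm

theorem algebraicRank_eq (h2 : (2 : k) ≠ 0) (h : FamA a b) : algebraicRank (curve a b) = 0 := by
  classical
  unfold algebraicRank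
  have hfin : Finite (curve a b).toAffine.Point :=
    Nat.finite_of_card_ne_zero (by rw [h.card h2]; norm_num)
  have hmf : Module.Finite ℤ (curve a b).toAffine.Point := Module.Finite.of_finite
  rw [Module.finrank_eq_zero_iff_isTorsion]
  intro P
  refine ⟨⟨2, mem_nonZeroDivisors_of_ne_zero two_ne_zero⟩, ?_⟩
  change (2 : ℤ) • P = 0
  have h3 : Nat.card (curve a b).toAffine.Point • P = 0 := card_nsmul_eq_zero'
  rw [h.card h2] at h3
  exact_mod_cast h3

variable [Finite k]

/-- The L-function modulo two. -/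
theorem LSeries_mod_two (h2 : (2 : k) ≠ 0) (h : FamA a b) :
    PowerSeries.map (Int.castRingHom (ZMod 2)) (LSeries k (curve a b)) * oneAdd 1 ^ 4 =
      oneAdd 1 ^ 2 * oneAdd b.natDegree ^ 2 := by
  classical
  have hbb : b * (a ^ 2 - 4 * b) ≠ 0 := mul_ne_zero h.hb.ne_zero h.hb'.ne_zero
  have hn0 : (normalize b) ≠ normalize (a ^ 2 - 4 * b) := by
    intro h0
    apply h.b_not_dvd_b' h2
    have h3 : b ∣ normalize (a ^ 2 - 4 * b) := by rw [← h0]; exact (associated_normalize b).dvd
    exact h3.trans (associated_normalize _).symm.dvd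
  set S : Finset k[X] := {normalize b, normalize (a ^ 2 - 4 * b)} with hS
  have hmem : ∀ π : k[X], π ∈ S ↔ π = normalize b ∨ π = normalize (a ^ 2 - 4 * b) := by
    intro π; rw [hS]; simp
  have hSS : ∀ π ∈ S, π.Monic ∧ Irreducible π := by
    intro π hπ
    rcases (hmem π).mp hπ with rfl | rfl
    · exact ⟨monic_normalize h.hb.ne_zero, (associated_normalize b).irreducible_iff.mp h.hb⟩
    · exact ⟨monic_normalize h.hb'.ne_zero, (associated_normalize _).irreducible_iff.mp h.hb'⟩
  have hdiv : ∀ π : k[X], π.Monic → Irreducible π →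
      (π ∈ S ↔ π ∣ b ∨ π ∣ a ^ 2 - 4 * b) := by
    intro π hm hπ
    rw [hmem]
    constructor
    · rintro (h0 | h0)
      · left; rw [h0]; exact (associated_normalize b).symm.dvd
      · right; rw [h0]; exact (associated_normalize _).symm.dvd
    · rintro (h0 | h0)
      · left
        exact Polynomial.eq_of_monic_of_associated hm (monic_normalize h.hb.ne_zero)
          ((hπ.associated_of_dvd h.hb h0).trans (associated_normalize b))
      · right
        exact Polynomial.eq_of_monic_of_associated hm (monic_normalize h.hb'.ne_zero)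
          ((hπ.associated_of_dvd h.hb' h0).trans (associated_normalize _))
  have hL := LSeries_two h2 (curve a b) S hSS (fun π => if π ∈ S then 1 else 0) 2
    (fun π hπ hm => by
      by_cases hπS : π ∈ S
      · rw [if_pos hπS]
        have h3 := (hdiv π hm hπ).mp hπS
        have h4 : ¬ π ∣ a := by
          intro hd
          rcases h3 with h3 | h3
          · exact h.b_not_dvd h2 ((hπ.associated_of_dvd h.hb h3).symm.dvd.trans hd)
          · exact h.b'_not_dvd h2 ((hπ.associated_of_dvd h.hb' h3).symm.dvd.trans hd)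
        rw [locTwo_mult_place h2 h.hb.ne_zero h.hb'.ne_zero hπ h4 h3]
        ring
      · rw [if_neg hπS, pow_zero, mul_one]
        have h3 : ¬ (π ∣ b ∨ π ∣ a ^ 2 - 4 * b) := fun h0 => hπS ((hdiv π hm hπ).mpr h0)
        push Not at h3
        exact locTwo_good_place h2 h.hb.ne_zero h.hb'.ne_zero hπ h3.1 h3.2)
    (fun π _ _ hnS => by rw [if_neg hnS])
    (by rw [locTwo_infty h2 h.odd (h.lt h2), one_mul])
  rw [hL, hS, Finset.prod_pair hn0]
  have hd1 : (normalize b).natDegree = b.natDegree := by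
    exact natDegree_eq_of_degree_eq (degree_eq_degree_of_associated (associated_normalize b).symm)
  have hd2 : (normalize (a ^ 2 - 4 * b)).natDegree = b.natDegree := by
    rw [← h.degree' h2]
    exact natDegree_eq_of_degree_eq (degree_eq_degree_of_associated (associated_normalize _).symm)
  rw [if_pos (Finset.mem_insert_self _ _), if_pos (Finset.mem_insert_of_mem
    (Finset.mem_singleton_self _)), hd1, hd2]
  ring

/-- The L-function modulo two as a polynomial. -/
theorem LSeries_mod_two' (h2 : (2 : k) ≠ 0) (h : FamA a b) :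
    PowerSeries.map (Int.castRingHom (ZMod 2)) (LSeries k (curve a b)) =
      (((∑ i ∈ Finset.range b.natDegree, X ^ i) ^ 2 : (ZMod 2)[X]) : PowerSeries (ZMod 2)) := by
  have h1 := h.LSeries_mod_two h2
  have hgeom : (1 + X ^ b.natDegree : (ZMod 2)[X]) =
      (∑ i ∈ Finset.range b.natDegree, X ^ i) * (1 + X ^ 1) := by
    have h3 := geom_sum_mul (X : (ZMod 2)[X]) b.natDegree
    have h20 : (2 : (ZMod 2)[X]) = 0 := two_eq_zero
    linear_combination (-1 : (ZMod 2)[X]) * h3 + (1 - ∑ i ∈ Finset.range b.natDegree, X ^ i) * h20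
  have h3 : oneAdd b.natDegree =
      ((∑ i ∈ Finset.range b.natDegree, X ^ i : (ZMod 2)[X]) : PowerSeries (ZMod 2)) * oneAdd 1 := by
    rw [← coe_oneAdd, ← coe_oneAdd, hgeom, Polynomial.coe_mul]
  have hu : oneAdd 1 ^ 4 ≠ 0 := by
    apply pow_ne_zero
    rw [← coe_oneAdd]
    intro h0
    exact one_add_ne_zero 1 one_ne_zero (Polynomial.coe_inj.mp (h0.trans Polynomial.coe_zero.symm))
  apply mul_right_cancel₀ hu
  rw [h1, h3, Polynomial.coe_pow]
  ring

/-- No factor `1 - q T` in the L-function. -/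
theorem exponent_eq (h2 : (2 : k) ≠ 0) (h : FamA a b) {n : ℕ} {g : ℤ[X]}
    (hg : (((1 - C (Nat.card k : ℤ) * X) ^ n * g : ℤ[X]) : PowerSeries ℤ) =
      LSeries k (curve a b)) : n = 0 := by
  classical
  have h1 := h.LSeries_mod_two h2
  have hd1 : (normalize b).natDegree = b.natDegree :=
    natDegree_eq_of_degree_eq (degree_eq_degree_of_associated (associated_normalize b).symm)
  have h3 := exponent_le h2 (curve a b) {normalize b} (by
    intro π hπ
    rw [Finset.mem_singleton] at hπ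
    rw [hπ]
    exact ⟨monic_normalize h.hb.ne_zero, (associated_normalize b).irreducible_iff.mp h.hb⟩)
    (fun _ => 2) 2 (by rw [h1, Finset.prod_singleton, hd1]) hg
  have hv : padicValNat 2 b.natDegree = 0 := by
    apply padicValNat.eq_zero_of_not_dvd
    have := h.odd
    rw [Nat.odd_iff] at this
    omega
  rw [Finset.sum_singleton, hd1, hv] at h3
  omega

theorem analyticRank_eq (h2 : (2 : k) ≠ 0) (h : FamA a b) :
    analyticRank k (curve a b) = 0 := by
  unfold analyticRank
  rcases Set.eq_empty_or_nonempty {n : ℕ | ∃ g : ℤ[X], (((1 - C (Nat.card k : ℤ) * X) ^ n * g :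
      ℤ[X]) : PowerSeries ℤ) = LSeries k (curve a b)} with h0 | h0
  · rw [h0, csSup_empty]; rfl
  · refine Nat.le_zero.mp (csSup_le h0 ?_)
    rintro n ⟨g, hg⟩
    exact (h.exponent_eq h2 hg).le

end FamA

/-- Two non-`l`-th powers with a prescribed difference. -/
theorem exists_not_pow (h2 : (2 : k) ≠ 0) [Finite k] {l : ℕ} (hl : l.Prime) (hl2 : l ≠ 2)
    (hlq : l ∣ Nat.card k - 1) (s : k) :
    ∃ β : k, (∀ y : k, y ^ l ≠ β) ∧ (∀ y : k, y ^ l ≠ β + s) := by
  classical
  have hq1 : 1 < Nat.card k := Finite.one_lt_card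
  have hl3 : 3 ≤ l := by
    have := hl.two_le
    omega
  -- `q` is odd
  have hodd : Odd (Nat.card k) := by
    have h := card_odd k h2
    exact (ZMod.natCast_eq_one_iff_odd).mp h
  have hcop : Nat.Coprime 2 l := (Nat.coprime_primes Nat.prime_two hl).mpr hl2.symm
  have h2q : 2 ∣ Nat.card k - 1 := by
    rw [Nat.odd_iff] at hodd
    omega
  have h2l : 2 * l ∣ Nat.card k - 1 := hcop.mul_dvd_of_dvd_of_dvd h2q hlq
  have hq : 2 * l ≤ Nat.card k - 1 := Nat.le_of_dvd (by omega) h2l
  obtain ⟨m, hm⟩ := hlq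
  have hm1 : (Nat.card k - 1) / l = m := by
    rw [hm]; exact Nat.mul_div_cancel_left m hl.pos
  set P : Set k := Set.range (fun y : k => y ^ l) with hP
  have hPcard : P.ncard ≤ m + 1 := by
    have hsub : P ⊆ insert 0 ((fun u : kˣ => (u : k)) ''
        ((powMonoidHom l : kˣ →* kˣ).range : Set kˣ)) := by
      rintro _ ⟨y, rfl⟩
      by_cases hy : y = 0
      · left
        simp only [hy]
        exact zero_pow hl.ne_zero
      · right
        refine ⟨(Units.mk0 y hy) ^ l, ⟨Units.mk0 y hy, rfl⟩, ?_⟩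
        simp
    refine (Set.ncard_le_ncard hsub (Set.toFinite _)).trans ?_
    refine (Set.ncard_insert_le _ _).trans ?_
    apply Nat.add_le_add_right
    refine (Set.ncard_image_le (Set.toFinite _)).trans ?_
    have h3 : ((powMonoidHom l : kˣ →* kˣ).range : Set kˣ).ncard =
        Nat.card (powMonoidHom l : kˣ →* kˣ).range := rfl
    rw [h3, IsCyclic.card_powMonoidHom_range, Nat.card_units, Nat.gcd_eq_right ⟨m, hm⟩, hm1]
  by_contra hcon
  push Not at hcon
  have hU : (Set.univ : Set k) ⊆ P ∪ (fun x => x - s) '' P := by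
    intro β _
    by_cases hβ : β ∈ P
    · exact Or.inl hβ
    · right
      obtain ⟨y, hy⟩ := hcon β (fun y hy => hβ ⟨y, hy⟩)
      exact ⟨β + s, ⟨y, hy⟩, by ring⟩
  have h5 := Set.ncard_le_ncard hU (Set.toFinite _)
  rw [Set.ncard_univ] at h5
  have h6 := Set.ncard_union_le P ((fun x => x - s) '' P)
  have h7 : ((fun x => x - s) '' P).ncard ≤ P.ncard := Set.ncard_image_le (Set.toFinite _)
  have h8 : 3 * m ≤ l * m := Nat.mul_le_mul_right m hl3
  omega

/-- Infinitely many members over every finite field whose multiplicative group has an element of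
odd prime order. -/
theorem exists_famA (h2 : (2 : k) ≠ 0) [Finite k] {l : ℕ} (hl : l.Prime) (hl2 : l ≠ 2)
    (hlq : l ∣ Nat.card k - 1) (c : k) (hc : c ≠ 0) :
    ∃ β : k, ∀ n : ℕ, FamA (C c) (X ^ (l ^ n) - C β) := by
  have h4 : (4 : k) ≠ 0 := by
    have : (4 : k) = 2 ^ 2 := by norm_num
    rw [this]; exact pow_ne_zero _ h2
  obtain ⟨β, hβ, hβ'⟩ := exists_not_pow h2 hl hl2 hlq (c ^ 2 / 4)
  refine ⟨β, fun n => ?_⟩
  have hpos : 0 < l ^ n := pow_pos hl.pos n
  have hoddn : Odd (l ^ n) := (hl.odd_of_ne_two hl2).pow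
  have hb := X_pow_sub_C_irreducible_of_prime_pow hl hl2 n hβ
  have hb' := X_pow_sub_C_irreducible_of_prime_pow hl hl2 n hβ'
  have heq : (C c ^ 2 - 4 * (X ^ (l ^ n) - C β) : k[X]) =
      C (-4) * (X ^ (l ^ n) - C (β + c ^ 2 / 4)) := by
    have h6 : (C (-4 : k) : k[X]) = -4 := by rw [C_neg, C_ofNat]
    have h7 : (4 : k[X]) * C (c ^ 2 / 4) = C c ^ 2 := by
      rw [← C_ofNat, ← C_mul, mul_div_cancel₀ _ h4, C_pow]
    rw [h6, C_add]
    linear_combination (-1 : k[X]) * h7
  have h4n : (-4 : k) ≠ 0 := neg_ne_zero.mpr h4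
  have hunit : IsUnit (C (-4 : k) : k[X]) := isUnit_C.mpr h4n.isUnit
  refine ⟨C_ne_zero.mpr hc, hb, ?_, ?_, ?_⟩
  · rw [heq]
    exact (irreducible_isUnit_mul hunit).mpr hb'
  · rw [natDegree_X_pow_sub_C]; exact hoddn
  · rw [heq, natDegree_C_mul h4n, natDegree_X_pow_sub_C]; exact hoddn

end Pool.Agent.BSDFF.Two
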