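import Mathlib

/-!
# Local factors modulo two

`R` a discrete valuation ring with fraction field `K`, finite residue field, `2` a unit of `R`,
`W` an elliptic curve over `K` with a `K`-rational point of order two. Modulo `2` the local
polynomial of `W` (Mathlib's `WeierstrassCurve.localPolynomial`) is `(1 + X) ^ 2`, `1 + X` or `1`
according as the reduction is good, multiplicative or additive.
-/

namespace Pool.Agent.Lib.MP_48b749_nt.Loc

open WeierstrassCurve IsLocalRing IsDedekindDomain.HeightOneSpectrum WithZero Multiplicative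

variable (R : Type*) [CommRing R] [IsDomain R] [IsDiscreteValuationRing R] {K : Type*}
  [Field K] [Algebra R K] [IsFractionRing R K]

/-- The normalised valuation of `K` attached to `R`. -/
noncomputable abbrev val : Valuation K ℤᵐ⁰ :=
  valuation K (IsDiscreteValuationRing.maximalIdeal R)

theorem val_le_one (r : R) : val R (algebraMap R K r) ≤ 1 := valuation_le_one _ r

theorem val_lt_one_iff (r : R) : val R (algebraMap R K r) < 1 ↔ r ∈ maximalIdeal R :=
  valuation_lt_one_iff_mem _ r

/-- Comparison of a minimal model with a model of small discriminant (or small `c₄`). -/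
theorem val_eq_of_small {W W₁ : WeierstrassCurve K} (hW : IsMinimal R W) (D : VariableChange K)
    (hD : W₁ = D • W) (hint : IsIntegral R W₁) (hΔ : W.Δ ≠ 0)
    (hsmall : exp (-12 : ℤ) < val R W₁.Δ ∨ exp (-4 : ℤ) < val R W₁.c₄) :
    val R W₁.Δ = val R W.Δ ∧ val R W₁.c₄ = val R W.c₄ := by
  subst hD
  have hW' : IsIntegral R W := inferInstance
  have hmax := hW.val_Δ_maximal.2 (j := D) hint
  have hle : val R (D • W).Δ ≤ val R W.Δ := by
    simp only [one_smul] at hmax
    rw [← valuation_Δ_aux_eq_of_isIntegral, ← valuation_Δ_aux_eq_of_isIntegral]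
    rcases le_total (valuation_Δ_aux R W) (valuation_Δ_aux R (D • W)) with h | h
    · exact hmax h
    · exact h
  have hΔ1 : val R (D • W).Δ = val R (D.u⁻¹ : K) ^ 12 * val R W.Δ := by
    rw [variableChange_Δ, map_mul, map_pow]; simp
  have hc1 : val R (D • W).c₄ = val R (D.u⁻¹ : K) ^ 4 * val R W.c₄ := by
    rw [variableChange_c₄, map_mul, map_pow]; simp
  have hv0 : val R W.Δ ≠ 0 := (Valuation.ne_zero_iff _).mpr hΔ
  have hu12 : val R (D.u⁻¹ : K) ^ 12 ≤ 1 := by
    rw [hΔ1] at hle
    by_contra hcon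
    push Not at hcon
    have h1 : 1 * val R W.Δ < val R (D.u⁻¹ : K) ^ 12 * val R W.Δ :=
      mul_lt_mul_of_pos_right hcon (zero_lt_iff.mpr hv0)
    rw [one_mul] at h1
    exact absurd hle (not_le.mpr h1)
  have hu1 : val R (D.u⁻¹ : K) ≤ 1 := by
    by_contra hcon
    push Not at hcon
    exact absurd hu12 (not_le.mpr (one_lt_pow₀ hcon (by norm_num)))
  have hΔle : val R W.Δ ≤ 1 := by
    obtain ⟨r, hr⟩ := Δ_integral_of_isIntegral R W
    rw [← hr]; exact val_le_one R r
  have hcle : val R W.c₄ ≤ 1 := by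
    rw [← integralModel_c₄_eq R W]; exact val_le_one R _
  have hu : val R (D.u⁻¹ : K) = 1 := by
    by_contra hne
    have hlt : val R (D.u⁻¹ : K) < 1 := lt_of_le_of_ne hu1 hne
    have hle1 : val R (D.u⁻¹ : K) ≤ exp (-1 : ℤ) := by
      have hu0 : val R (D.u⁻¹ : K) ≠ 0 := (Valuation.ne_zero_iff _).mpr (inv_ne_zero D.u.ne_zero)
      rw [← exp_log hu0] at hlt ⊢
      rw [← exp_zero, exp_lt_exp] at hlt
      rw [exp_le_exp]; omega
    rcases hsmall with h | h
    · have h2 : val R (D • W).Δ ≤ exp (-12 : ℤ) := by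
        rw [hΔ1]
        calc val R (D.u⁻¹ : K) ^ 12 * val R W.Δ ≤ exp (-1 : ℤ) ^ 12 * 1 :=
              mul_le_mul' (pow_le_pow_left' hle1 12) hΔle
          _ = exp (-12 : ℤ) := by rw [mul_one, ← exp_nsmul]; norm_num
      exact absurd h (not_lt.mpr h2)
    · have h2 : val R (D • W).c₄ ≤ exp (-4 : ℤ) := by
        rw [hc1]
        calc val R (D.u⁻¹ : K) ^ 4 * val R W.c₄ ≤ exp (-1 : ℤ) ^ 4 * 1 :=
              mul_le_mul' (pow_le_pow_left' hle1 4) hcle
          _ = exp (-4 : ℤ) := by rw [mul_one, ← exp_nsmul]; norm_num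
      exact absurd h (not_lt.mpr h2)
  rw [hΔ1, hc1, hu]
  simp

/-- A rational root of the two-division polynomial makes the number of points even. -/
theorem even_card (h2 : IsUnit (2 : R)) (W : WeierstrassCurve K) (hW : HasGoodReduction R W)
    {x : K} (hx : 4 * x ^ 3 + W.b₂ * x ^ 2 + 2 * W.b₄ * x + W.b₆ = 0) :
    haveI := hW.toIsMinimal
    2 ∣ Nat.card (W.reduction R).toAffine.Point := by
  have hmin := hW.toIsMinimal
  set I := integralModel R W with hI
  have e2 : algebraMap R K I.b₂ = W.b₂ := integralModel_b₂_eq R W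
  have e4 : algebraMap R K I.b₄ = W.b₄ := integralModel_b₄_eq R W
  have e6 : algebraMap R K I.b₆ = W.b₆ := integralModel_b₆_eq R W
  -- the root is integral
  obtain ⟨z, hz⟩ : ∃ z : R, algebraMap R K z = 4 * x := by
    apply IsIntegrallyClosed.isIntegral_iff.mp
    refine ⟨Polynomial.X ^ 3 + (Polynomial.C I.b₂ * Polynomial.X ^ 2 +
      Polynomial.C (8 * I.b₄) * Polynomial.X + Polynomial.C (16 * I.b₆)), ?_, ?_⟩
    · apply Polynomial.monic_X_pow_add
      apply lt_of_le_of_lt (Polynomial.degree_quadratic_le)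
      norm_num
    · rw [Polynomial.eval₂_add, Polynomial.eval₂_add, Polynomial.eval₂_add, Polynomial.eval₂_mul,
        Polynomial.eval₂_mul, Polynomial.eval₂_C, Polynomial.eval₂_C, Polynomial.eval₂_C,
        Polynomial.eval₂_pow, Polynomial.eval₂_pow, Polynomial.eval₂_X]
      simp only [map_mul, map_ofNat, e2, e4, e6]
      linear_combination 16 * hx
  obtain ⟨two, htwo⟩ := h2
  have htwoK : (algebraMap R K (↑two⁻¹ : R)) * 2 = 1 := by
    have : (↑two⁻¹ : R) * 2 = 1 := by rw [← htwo]; simp
    have h3 := congrArg (algebraMap R K) this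
    rwa [map_mul, map_ofNat, map_one] at h3
  set r : R := ↑two⁻¹ * ↑two⁻¹ * z with hr
  have hrx : algebraMap R K r = x := by
    rw [hr, map_mul, map_mul, hz]
    linear_combination (x * (algebraMap R K ↑two⁻¹ * 2 + 1)) * htwoK
  have hroot : 4 * r ^ 3 + I.b₂ * r ^ 2 + 2 * I.b₄ * r + I.b₆ = 0 := by
    apply IsFractionRing.injective R K
    simp only [map_add, map_mul, map_pow, map_ofNat, map_zero, hrx, e2, e4, e6]
    exact hx
  -- the reduction
  have hell : (W.reduction R).IsElliptic := (hasGoodReduction_iff_isElliptic_reduction R).mp hW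
  set κ := ResidueField R
  have h2κ : (2 : κ) ≠ 0 := by
    have : (2 : κ) = residue R 2 := by rw [map_ofNat]
    rw [this, Ne, residue_eq_zero_iff, ← htwo]
    exact fun h => (IsLocalRing.mem_maximalIdeal _).mp h two.isUnit
  set V := W.reduction R with hV
  have hVI : V = I.map (residue R) := rfl
  set xb : κ := residue R r with hxb
  have hrootκ : 4 * xb ^ 3 + V.b₂ * xb ^ 2 + 2 * V.b₄ * xb + V.b₆ = 0 := by
    have h3 := congrArg (residue R) hroot
    rw [hVI, WeierstrassCurve.map_b₂, WeierstrassCurve.map_b₄, WeierstrassCurve.map_b₆]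
    simpa only [map_add, map_mul, map_pow, map_ofNat, map_zero] using h3
  set yb : κ := -(V.a₁ * xb + V.a₃) / 2 with hyb
  have hy2 : 2 * yb = -(V.a₁ * xb + V.a₃) := by rw [hyb, mul_comm, div_mul_cancel₀ _ h2κ]
  have heq : V.toAffine.Equation xb yb := by
    rw [Affine.equation_iff]
    have h4κ : (4 : κ) ≠ 0 := by
      have : (4 : κ) = 2 * 2 := by norm_num
      rw [this]; exact mul_ne_zero h2κ h2κ
    apply mul_left_cancel₀ h4κ
    simp only [WeierstrassCurve.b₂, WeierstrassCurve.b₄, WeierstrassCurve.b₆] at hrootκ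
    linear_combination (2 * yb + V.a₁ * xb + V.a₃) * hy2 - hrootκ
  have hns : V.toAffine.Nonsingular xb yb := (Affine.equation_iff_nonsingular).mp heq
  classical
  set P : V.toAffine.Point := Affine.Point.some xb yb hns with hP
  have hPP : P + P = 0 := by
    apply Affine.Point.add_self_of_Y_eq
    rw [Affine.negY]
    linear_combination hy2
  have hP0 : P ≠ 0 := Affine.Point.some_ne_zero hns
  have : Fact (Nat.Prime 2) := ⟨Nat.prime_two⟩
  have hord : addOrderOf P = 2 := addOrderOf_eq_prime (by rw [two_nsmul]; exact hPP) hP0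
  rw [← hord]
  exact addOrderOf_dvd_natCard P

open Polynomial in
/-- The local polynomial modulo `2`. -/
noncomputable def locTwo (W : WeierstrassCurve K) : (ZMod 2)[X] :=
  (W.localPolynomial R).map (Int.castRingHom (ZMod 2))

/-- A curve with a rational point of order two. -/
def HasTwoTorsion (W : WeierstrassCurve K) : Prop :=
  ∃ x : K, 4 * x ^ 3 + W.b₂ * x ^ 2 + 2 * W.b₄ * x + W.b₆ = 0

theorem HasTwoTorsion.smul {W : WeierstrassCurve K} (h : HasTwoTorsion W) (C : VariableChange K) :
    HasTwoTorsion (C • W) := by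
  obtain ⟨x, hx⟩ := h
  refine ⟨(C.u⁻¹ : K) ^ 2 * (x - C.r), ?_⟩
  rw [variableChange_b₂, variableChange_b₄, variableChange_b₆]
  simp only [Units.val_inv_eq_inv_val]
  linear_combination ((C.u : K)⁻¹ ^ 6) * hx

open Polynomial

theorem locTwo_good [Finite (ResidueField R)] (h2 : IsUnit (2 : R)) {W : WeierstrassCurve K}
    (ht : HasTwoTorsion W) (hW : HasGoodReduction R (W.minimal R)) :
    locTwo R W = (1 + X) ^ 2 := by
  have ht' : HasTwoTorsion (W.minimal R) := ht.smul _
  obtain ⟨x, hx⟩ := ht'
  have heven := even_card R h2 _ hW hx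
  have h2κ : (2 : ResidueField R) ≠ 0 := by
    have : (2 : ResidueField R) = residue R 2 := by rw [map_ofNat]
    rw [this, Ne, residue_eq_zero_iff]
    exact fun h => (IsLocalRing.mem_maximalIdeal _).mp h h2
  have hq : (Nat.card (ResidueField R) : ZMod 2) = 1 := by
    have hodd : Odd (Nat.card (ResidueField R)) := by
      have := Fintype.ofFinite (ResidueField R)
      rw [Nat.card_eq_fintype_card]
      have h3 : ringChar (ResidueField R) ≠ 2 := by
        intro h
        apply h2κ
        have := ringChar.Nat.cast_ringChar (R := ResidueField R)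
        rw [h] at this
        exact_mod_cast this
      exact Nat.odd_iff.mpr (FiniteField.odd_card_of_char_ne_two h3)
    exact (ZMod.natCast_eq_one_iff_odd).mpr hodd
  unfold locTwo localPolynomial
  simp only [if_pos hW]
  have ha : ((Nat.card ((W.minimal R).reduction R).toAffine.Point : ℤ) : ZMod 2) = 0 := by
    obtain ⟨c, hc⟩ := heven
    rw [hc]
    push_cast
    rw [show (2 : ZMod 2) = 0 from rfl, zero_mul]
  rw [Polynomial.map_add, Polynomial.map_sub, Polynomial.map_mul, Polynomial.map_mul,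
    Polynomial.map_one, Polynomial.map_pow, Polynomial.map_X, Polynomial.map_C, Polynomial.map_C,
    eq_intCast, eq_intCast, Int.cast_sub, Int.cast_add, Int.cast_one, ha, Int.cast_natCast, hq]
  have h20 : (2 : (ZMod 2)[X]) = 0 := by
    rw [show (2 : (ZMod 2)[X]) = C 2 from (C_ofNat 2).symm, show (2 : ZMod 2) = 0 from rfl, C_0]
  have h3 : ((1 : ZMod 2) + 1 - 0) = 0 := rfl
  rw [h3, C_0, C_1]
  linear_combination (-X) * h20

theorem locTwo_mult {W : WeierstrassCurve K} (hW : HasMultiplicativeReduction R (W.minimal R)) :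
    locTwo R W = 1 + X := by
  unfold locTwo localPolynomial
  have hng : ¬ HasGoodReduction R (W.minimal R) := hW.not_hasGoodReduction
  simp only [if_neg hng]
  by_cases hs : HasSplitMultiplicativeReduction R (W.minimal R)
  · simp only [if_pos hs]
    have h20 : (2 : (ZMod 2)[X]) = 0 := by
      rw [show (2 : (ZMod 2)[X]) = C 2 from (C_ofNat 2).symm, show (2 : ZMod 2) = 0 from rfl, C_0]
    simp only [Polynomial.map_sub, Polynomial.map_one, Polynomial.map_X]
    linear_combination (-X) * h20
  · simp only [if_neg hs, if_pos hW]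
    simp

theorem locTwo_add {W : WeierstrassCurve K} (hW : HasAdditiveReduction R (W.minimal R)) :
    locTwo R W = 1 := by
  unfold locTwo localPolynomial
  have hng : ¬ HasGoodReduction R (W.minimal R) := hW.not_hasGoodReduction
  have hnm : ¬ HasMultiplicativeReduction R (W.minimal R) := hW.not_hasMultiplicativeReduction
  have hns : ¬ HasSplitMultiplicativeReduction R (W.minimal R) :=
    fun h => hnm h.toHasMultiplicativeReduction
  simp only [if_neg hng, if_neg hnm, if_neg hns]
  simp

theorem val_gt_iff (r : R) (n : ℕ) :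
    exp (-(n : ℤ)) < val R (algebraMap R K r) ↔ r ∉ maximalIdeal R ^ n := by
  rw [val, valuation_of_algebraMap, ← not_le, intValuation_le_pow_iff_mem]
  rfl

/-- The reduction type read off a model of small discriminant (or small `c₄`). -/
theorem type_of_model {W : WeierstrassCurve K}
    (hΔ : W.Δ ≠ 0) (I : WeierstrassCurve R) (D : VariableChange K)
    (hD : I.map (algebraMap R K) = D • W)
    (hsmall : I.Δ ∉ maximalIdeal R ^ 12 ∨ I.c₄ ∉ maximalIdeal R ^ 4) :
    (I.Δ ∉ maximalIdeal R → HasGoodReduction R (W.minimal R)) ∧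
    (I.Δ ∈ maximalIdeal R → I.c₄ ∉ maximalIdeal R →
      HasMultiplicativeReduction R (W.minimal R)) ∧
    (I.Δ ∈ maximalIdeal R → I.c₄ ∈ maximalIdeal R → HasAdditiveReduction R (W.minimal R)) := by
  set C := (W.exists_isMinimal R).choose with hC
  have hCW : W.minimal R = C • W := rfl
  have hmin : IsMinimal R (W.minimal R) := inferInstance
  have hΔ' : (W.minimal R).Δ ≠ 0 := by
    rw [hCW, variableChange_Δ]
    exact mul_ne_zero (pow_ne_zero _ (Units.ne_zero _)) hΔ
  have hD' : D • W = (D * C⁻¹) • (W.minimal R) := by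
    rw [hCW, ← mul_smul, inv_mul_cancel_right]
  have hint : IsIntegral R (D • W) := ⟨⟨I, hD.symm⟩⟩
  have hΔI : algebraMap R K I.Δ = (D • W).Δ := by rw [← hD, WeierstrassCurve.map_Δ]
  have hcI : algebraMap R K I.c₄ = (D • W).c₄ := by rw [← hD, WeierstrassCurve.map_c₄]
  obtain ⟨hv, hc⟩ := val_eq_of_small R hmin (D * C⁻¹) hD' hint hΔ' (by
    rcases hsmall with h | h
    · left
      rw [← hΔI]
      exact (val_gt_iff R I.Δ 12).mpr h
    · right
      rw [← hcI]
      exact (val_gt_iff R I.c₄ 4).mpr h)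
  rw [← hΔI] at hv
  rw [← hcI] at hc
  have hΔm : val R (W.minimal R).Δ < 1 ↔ I.Δ ∈ maximalIdeal R := by
    rw [← hv]; exact val_lt_one_iff R _
  have hcm : val R (W.minimal R).c₄ < 1 ↔ I.c₄ ∈ maximalIdeal R := by
    rw [← hc]; exact val_lt_one_iff R _
  have hΔ1 : val R (W.minimal R).Δ ≤ 1 := by rw [← hv]; exact val_le_one R _
  have hc1 : val R (W.minimal R).c₄ ≤ 1 := by rw [← hc]; exact val_le_one R _
  refine ⟨fun h => ?_, fun h h' => ?_, fun h h' => ?_⟩
  · exact { toIsMinimal := hmin
            goodReduction := le_antisymm hΔ1 (not_lt.mp (fun hlt => h (hΔm.mp hlt))) }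
  · exact { toIsMinimal := hmin
            badReduction := hΔm.mpr h
            multiplicativeReduction :=
              le_antisymm hc1 (not_lt.mp (fun hlt => h' (hcm.mp hlt))) }
  · exact { toIsMinimal := hmin
            badReduction := hΔm.mpr h
            additiveReduction := hcm.mpr h' }

/-- The local polynomial modulo `2` read off a model of small discriminant (or small `c₄`). -/
theorem locTwo_of_model [Finite (ResidueField R)] (h2 : IsUnit (2 : R)) {W : WeierstrassCurve K}
    (ht : HasTwoTorsion W) (hΔ : W.Δ ≠ 0) (I : WeierstrassCurve R) (D : VariableChange K)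
    (hD : I.map (algebraMap R K) = D • W)
    (hsmall : I.Δ ∉ maximalIdeal R ^ 12 ∨ I.c₄ ∉ maximalIdeal R ^ 4) :
    (I.Δ ∉ maximalIdeal R → locTwo R W = (1 + X) ^ 2) ∧
    (I.Δ ∈ maximalIdeal R → I.c₄ ∉ maximalIdeal R → locTwo R W = 1 + X) ∧
    (I.Δ ∈ maximalIdeal R → I.c₄ ∈ maximalIdeal R → locTwo R W = 1) := by
  obtain ⟨h1, h3, h4⟩ := type_of_model R hΔ I D hD hsmall
  exact ⟨fun h => locTwo_good R h2 ht (h1 h), fun h h' => locTwo_mult R (h3 h h'),
    fun h h' => locTwo_add R (h4 h h')⟩

end Pool.Agent.Lib.MP_48b749_nt.Loc
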