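import Pool.Agent.Lib.MP_48b749_nt.Global
import Pool.Agent.Lib.MP_48b749_nt.Two.LocalTwo

/-!
# The L-function modulo two of a curve over `k(t)` with a rational point of order two
-/

set_option autoImplicit false

open Polynomial

namespace Pool.Agent.BSDFF.Two

open Pool.Agent.Lib.MP_48b749_nt.Loc

variable {k : Type} [Field k] [Finite k]

/-- The closed points of degree at most `n` of the projective line, `n` positive. -/
lemma prod_places_all (F : Place k (RatFunc k) → PowerSeries ℤ) {n : ℕ} (hn : 1 ≤ n) :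
    ∏ᶠ (v : Place k (RatFunc k)) (_ : v.degree ≤ n), F v =
    F (placeInfty k) * ∏ π : {π // π ∈ irrLE k n},
      F (placeOf π.1 ((mem_irrLE n π.1).mp π.2).2.1) := by
  classical
  set g : Option {π // π ∈ irrLE k n} → Place k (RatFunc k) := fun o =>
    match o with
    | none => placeInfty k
    | some π => placeOf π.1 ((mem_irrLE n π.1).mp π.2).2.1 with hg
  have hne : ∀ π : {π // π ∈ irrLE k n},
      placeOf π.1 ((mem_irrLE n π.1).mp π.2).2.1 ≠ placeInfty k := by
    intro π h
    apply X_not_mem_placeInfty k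
    rw [← h]
    exact X_mem_placeOf _ _
  have hinj : Function.Injective g := by
    rintro (_ | π) (_ | π') h
    · rfl
    · exact absurd h.symm (hne π')
    · exact absurd h (hne π)
    · congr 1
      exact Subtype.ext (placeOf_injective _ _ ((mem_irrLE n π.1).mp π.2).1
        ((mem_irrLE n π'.1).mp π'.2).1 h)
  have hset : {v : Place k (RatFunc k) | v.degree ≤ n} = Set.range g := by
    ext v
    constructor
    · intro h
      change v.degree ≤ n at h
      by_cases hX : RatFunc.X ∈ v.ring
      · obtain ⟨π, hm, hπ, hn'⟩ := exists_irreducible_nonunit v hX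
        have hveq := eq_placeOf v hX hπ hn'
        have hdeg := degree_eq v hX hπ hn'
        exact ⟨some ⟨π, (mem_irrLE n π).mpr ⟨hm, hπ, by omega⟩⟩, hveq.symm⟩
      · exact ⟨none, (eq_placeInfty v hX).symm⟩
    · rintro ⟨(_ | π), rfl⟩
      · change (placeInfty k).degree ≤ n
        rw [degree_placeInfty]; exact hn
      · obtain ⟨i1, i2, i3⟩ := (mem_irrLE n π.1).mp π.2
        change (placeOf π.1 i2).degree ≤ n
        rw [degree_eq (placeOf π.1 i2) (X_mem_placeOf π.1 i2) i2 (nonunit_placeOf π.1 i2)]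
        exact i3
  change ∏ᶠ (v : Place k (RatFunc k)) (_ : v ∈ {v : Place k (RatFunc k) | v.degree ≤ n}), F v = _
  rw [hset, finprod_mem_range hinj, finprod_eq_prod_of_fintype, Fintype.prod_option]

/-- The local factor modulo two as a power series. -/
lemma map_localFactor (W : WeierstrassCurve (RatFunc k)) (v : Place k (RatFunc k)) :
    PowerSeries.map (Int.castRingHom (ZMod 2)) (localFactor W v : PowerSeries ℤ) =
      (((locTwo v.ring W).comp (X ^ v.degree) : (ZMod 2)[X]) : PowerSeries (ZMod 2)) := by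
  rw [coe_map, localFactor, locTwo, Polynomial.map_comp, Polynomial.map_pow, Polynomial.map_X]

lemma localFactor_mul (W : WeierstrassCurve (RatFunc k)) (v : Place k (RatFunc k)) {e : ℕ}
    (h : locTwo v.ring W * (1 + X) ^ e = (1 + X) ^ 2) :
    PowerSeries.map (Int.castRingHom (ZMod 2)) (localFactor W v : PowerSeries ℤ) *
      oneAdd v.degree ^ e = oneAdd v.degree ^ 2 := by
  rw [map_localFactor, ← coe_oneAdd, ← Polynomial.coe_pow, ← Polynomial.coe_pow,
    ← Polynomial.coe_mul]
  have h1 := congrArg (fun f : (ZMod 2)[X] => f.comp (X ^ v.degree)) h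
  simp only [mul_comp, pow_comp, add_comp, one_comp, X_comp] at h1
  rw [h1]

lemma degree_ne_zero (v : Place k (RatFunc k)) : v.degree ≠ 0 := by
  by_cases hX : RatFunc.X ∈ v.ring
  · obtain ⟨π, -, hπ, hn'⟩ := exists_irreducible_nonunit v hX
    rw [degree_eq v hX hπ hn']
    exact hπ.natDegree_pos.ne'
  · rw [eq_placeInfty v hX, degree_placeInfty]
    exact one_ne_zero

lemma degree_placeOf {π : k[X]} (hπ : Irreducible π) : (placeOf π hπ).degree = π.natDegree :=
  degree_eq (placeOf π hπ) (X_mem_placeOf π hπ) hπ (nonunit_placeOf π hπ)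

lemma map_invOfUnit_mul (W : WeierstrassCurve (RatFunc k)) (v : Place k (RatFunc k)) :
    PowerSeries.map (Int.castRingHom (ZMod 2))
      (PowerSeries.invOfUnit (localFactor W v : PowerSeries ℤ) 1) *
      PowerSeries.map (Int.castRingHom (ZMod 2)) (localFactor W v : PowerSeries ℤ) = 1 := by
  rw [← map_mul, mul_comm, PowerSeries.mul_invOfUnit _ _
    (by rw [localFactor_constantCoeff _ _ (degree_ne_zero v)]; rfl), map_one]

lemma inv_mul_sq (W : WeierstrassCurve (RatFunc k)) (v : Place k (RatFunc k)) {e : ℕ}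
    (h : locTwo v.ring W * (1 + X) ^ e = (1 + X) ^ 2) :
    PowerSeries.map (Int.castRingHom (ZMod 2))
      (PowerSeries.invOfUnit (localFactor W v : PowerSeries ℤ) 1) * oneAdd v.degree ^ 2 =
      oneAdd v.degree ^ e := by
  rw [← localFactor_mul W v h, ← mul_assoc, map_invOfUnit_mul, one_mul]

/-- **The L-function modulo two.** `e` is `0` at the places of good reduction, `1` at those of
multiplicative and `2` at those of additive reduction. -/
theorem LSeries_two (h2 : (2 : k) ≠ 0) (W : WeierstrassCurve (RatFunc k)) (S : Finset k[X])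
    (hS : ∀ π ∈ S, π.Monic ∧ Irreducible π) (e : k[X] → ℕ) (einf : ℕ)
    (he : ∀ (π : k[X]) (hπ : Irreducible π), π.Monic →
      locTwo (placeOf π hπ).ring W * (1 + X) ^ (e π) = (1 + X) ^ 2)
    (he0 : ∀ π : k[X], π.Monic → Irreducible π → π ∉ S → e π = 0)
    (hinf : locTwo (placeInfty k).ring W * (1 + X) ^ einf = (1 + X) ^ 2) :
    PowerSeries.map (Int.castRingHom (ZMod 2)) (LSeries k W) * oneAdd 1 ^ 4 =
      oneAdd 1 ^ einf * ∏ π ∈ S, oneAdd π.natDegree ^ (e π) := by
  classical
  have hu : IsUnit (oneAdd 1 ^ 4) := by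
    apply IsUnit.pow
    rw [PowerSeries.isUnit_iff_constantCoeff]
    unfold oneAdd
    simp
  obtain ⟨V, hV⟩ := hu.exists_right_inv
  suffices h : PowerSeries.map (Int.castRingHom (ZMod 2)) (LSeries k W) =
      (oneAdd 1 ^ einf * ∏ π ∈ S, oneAdd π.natDegree ^ (e π)) * V by
    rw [h, mul_assoc, mul_comm V, hV, mul_one]
  ext n
  rw [PowerSeries.coeff_map, LSeries, PowerSeries.coeff_mk, ← PowerSeries.coeff_map]
  rcases Nat.eq_zero_or_pos n with rfl | hn
  · -- the constant coefficient
    have h1 : ∏ᶠ (v : Place k (RatFunc k)) (_ : v.degree ≤ 0),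
        PowerSeries.invOfUnit (localFactor W v : PowerSeries ℤ) 1 = 1 := by
      apply finprod_eq_one_of_forall_eq_one
      intro v
      have : IsEmpty (v.degree ≤ 0) := ⟨fun hv => degree_ne_zero v (Nat.le_zero.mp hv)⟩
      exact finprod_of_isEmpty _
    rw [h1, map_one]
    have h2' := congrArg (PowerSeries.constantCoeff) hV
    have h3 : PowerSeries.constantCoeff (oneAdd 1) = 1 := by
      unfold oneAdd; simp
    have h4 : ∀ π ∈ S, PowerSeries.constantCoeff (oneAdd π.natDegree) = 1 := by
      intro π hπ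
      unfold oneAdd
      have := (hS π hπ).2.natDegree_pos.ne'
      simp [this]
    rw [map_mul, map_pow, h3, one_pow, one_mul, map_one] at h2'
    rw [PowerSeries.coeff_zero_eq_constantCoeff_apply,
      PowerSeries.coeff_zero_eq_constantCoeff_apply, map_one, map_mul, map_mul, map_pow, h3,
      one_pow, one_mul, h2', mul_one, map_prod]
    symm
    apply Finset.prod_eq_one
    intro π hπ
    rw [map_pow, h4 π hπ, one_pow]
  · rw [prod_places_all _ hn, map_mul, map_prod]
    obtain ⟨B, hB⟩ : ∃ B : PowerSeries (ZMod 2), B = PowerSeries.map (Int.castRingHom (ZMod 2))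
      (PowerSeries.invOfUnit (localFactor W (placeInfty k) : PowerSeries ℤ) 1) *
      ∏ π : {π // π ∈ irrLE k n}, PowerSeries.map (Int.castRingHom (ZMod 2))
        (PowerSeries.invOfUnit (localFactor W (placeOf π.1 ((mem_irrLE n π.1).mp π.2).2.1) :
          PowerSeries ℤ) 1) := ⟨_, rfl⟩
    rw [← hB]
    have h1 : B * (oneAdd 1 * ∏ π ∈ irrLE k n, oneAdd π.natDegree) ^ 2 =
        oneAdd 1 ^ einf * ∏ π ∈ irrLE k n, oneAdd π.natDegree ^ (e π) := by
      rw [hB, mul_pow, ← Finset.prod_pow, ← Finset.prod_coe_sort (irrLE k n),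
        ← Finset.prod_coe_sort (irrLE k n)]
      have h3 := inv_mul_sq W (placeInfty k) hinf
      rw [degree_placeInfty] at h3
      have h4 : (∏ π : {π // π ∈ irrLE k n}, PowerSeries.map (Int.castRingHom (ZMod 2))
          (PowerSeries.invOfUnit (localFactor W (placeOf π.1 ((mem_irrLE n π.1).mp π.2).2.1) :
          PowerSeries ℤ) 1)) * ∏ π : {π // π ∈ irrLE k n}, oneAdd π.1.natDegree ^ 2 =
          ∏ π : {π // π ∈ irrLE k n}, oneAdd π.1.natDegree ^ (e π.1) := by
        rw [← Finset.prod_mul_distrib]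
        apply Finset.prod_congr rfl
        intro π _
        obtain ⟨i1, i2, i3⟩ := (mem_irrLE n π.1).mp π.2
        have h5 := inv_mul_sq W (placeOf π.1 i2) (he π.1 i2 i1)
        rwa [degree_placeOf] at h5
      rw [mul_mul_mul_comm, h3, h4]
    have h3 : phi n (∏ π ∈ irrLE k n, oneAdd π.natDegree ^ (e π)) =
        phi n (∏ π ∈ S, oneAdd π.natDegree ^ (e π)) := by
      have hU : ∀ T : Finset k[X], T ⊆ irrLE k n ∪ S →
          (∀ π ∈ (irrLE k n ∪ S) \ T, phi n (oneAdd π.natDegree ^ (e π)) = 1) →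
          phi n (∏ π ∈ T, oneAdd π.natDegree ^ (e π)) =
            phi n (∏ π ∈ irrLE k n ∪ S, oneAdd π.natDegree ^ (e π)) := by
        intro T hT h
        rw [← Finset.prod_sdiff hT, map_mul, map_prod (phi n) _ ((irrLE k n ∪ S) \ T),
          Finset.prod_eq_one h, one_mul]
      rw [hU _ Finset.subset_union_left, hU _ Finset.subset_union_right]
      · intro π hπ
        rw [Finset.mem_sdiff, Finset.mem_union] at hπ
        have h4 : π ∈ irrLE k n := hπ.1.resolve_right hπ.2
        obtain ⟨i1, i2, i3⟩ := (mem_irrLE n π).mp h4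
        rw [he0 π i1 i2 hπ.2, pow_zero, map_one]
      · intro π hπ
        rw [Finset.mem_sdiff, Finset.mem_union] at hπ
        have h4 : π ∈ S := hπ.1.resolve_left hπ.2
        rw [map_pow, phi_oneAdd_of_lt, one_pow]
        by_contra hcon
        exact hπ.2 ((mem_irrLE n π).mpr ⟨(hS π h4).1, (hS π h4).2, by omega⟩)
    have h4 := congrArg (phi n) h1
    rw [map_mul, map_pow, map_mul (phi n) (oneAdd 1) (∏ π ∈ irrLE k n, oneAdd π.natDegree),
      euler_mod2 h2, map_mul, h3, ← map_mul, ← map_mul, ← map_pow, ← map_mul] at h4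
    have h5 : phi n B = phi n ((oneAdd 1 ^ einf * ∏ π ∈ S, oneAdd π.natDegree ^ (e π)) * V) := by
      rw [map_mul, ← h4, ← map_mul]
      congr 1
      have h6 : (oneAdd 1 * oneAdd 1) ^ 2 = oneAdd 1 ^ 4 := by ring
      rw [h6, mul_assoc, hV, mul_one]
    exact (phi_eq_iff n _ _).mp h5 n le_rfl

end Pool.Agent.BSDFF.Two
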