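import Pool.Agent.Lib.MP_48b749_nt.Two.Bound
import Pool.Agent.Lib.MP_48b749_nt.Two.Curve2

/-!
# The bound for the analytic rank of a curve over `k(t)` with a rational point of order two
-/

set_option autoImplicit false

open Polynomial

namespace Pool.Agent.BSDFF

open Classical in
/-- `0`, `1` or `2` according as `W` has good, multiplicative or additive reduction at `v`. -/
noncomputable def badness {k K : Type} [Field k] [Field K] [Algebra k K]
    (W : WeierstrassCurve K) (v : Place k K) : ℕ :=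
  if (W.minimal v.ring).HasGoodReduction v.ring then 0
  else if (W.minimal v.ring).HasMultiplicativeReduction v.ring then 1
  else 2

/-- The sum over the places `v` of the badness times the largest power of `2` dividing the
degree of `v`. -/
noncomputable def twoAdicBadness (k : Type) {K : Type} [Field k] [Field K] [Algebra k K]
    (W : WeierstrassCurve K) : ℕ :=
  ∑ᶠ v : Place k K, badness W v * 2 ^ (padicValNat 2 v.degree)

namespace Two

open Pool.Agent.Lib.MP_48b749_nt.Loc WeierstrassCurve

section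

variable {K : Type} [Field K]

/-- A point of order two. -/
theorem hasTwoTorsion_of_point {W : WeierstrassCurve K} (P : W.toAffine.Point) (hP : P ≠ 0)
    (hPP : P = -P) : HasTwoTorsion W := by
  match P, hP with
  | .some x y h, _ =>
    refine ⟨x, ?_⟩
    rw [Affine.Point.neg_some] at hPP
    have hy : y = W.toAffine.negY x y := by
      injection hPP
    rw [Affine.negY] at hy
    have heq := (Affine.equation_iff _ _).mp h.1
    simp only [WeierstrassCurve.b₂, WeierstrassCurve.b₄, WeierstrassCurve.b₆]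
    linear_combination (-4) * heq + (2 * y + W.a₁ * x + W.a₃) * hy

end

variable {k : Type} [Field k]

/-- A curve over `k(t)` with a rational point of order two has an equation
`y ^ 2 = x ^ 3 + a x ^ 2 + b x` with `a, b ∈ k[t]`. -/
theorem exists_curve (h2 : (2 : k) ≠ 0) {W : WeierstrassCurve (RatFunc k)}
    (ht : HasTwoTorsion W) :
    ∃ (D : VariableChange (RatFunc k)) (a b : k[X]), D • W = curve a b := by
  have h2K : (2 : RatFunc k) ≠ 0 := by
    rw [show (2 : RatFunc k) = algebraMap k (RatFunc k) 2 from (map_ofNat _ 2).symm]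
    exact fun h => h2 ((FaithfulSMul.algebraMap_eq_zero_iff _ _).mp h)
  obtain ⟨x, hx⟩ := ht
  set s : RatFunc k := -W.a₁ / 2 with hs
  set t : RatFunc k := -(W.a₁ * x + W.a₃) / 2 with htt
  have hs2 : 2 * s = -W.a₁ := by rw [hs]; field_simp
  have ht2 : 2 * t = -(W.a₁ * x + W.a₃) := by rw [htt]; field_simp
  set A : RatFunc k := W.a₂ - s * W.a₁ + 3 * x - s ^ 2 with hA
  set B : RatFunc k := W.a₄ - s * W.a₃ + 2 * x * W.a₂ - (t + x * s) * W.a₁ + 3 * x ^ 2
    - 2 * s * t with hB
  obtain ⟨d, hd, hdA, hdB⟩ : ∃ d : k[X], d ≠ 0 ∧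
      (∃ a : k[X], algebraMap k[X] (RatFunc k) d ^ 2 * A = algebraMap k[X] (RatFunc k) a) ∧
      (∃ b : k[X], algebraMap k[X] (RatFunc k) d ^ 4 * B = algebraMap k[X] (RatFunc k) b) := by
    obtain ⟨a1, a2, ha2, hAa⟩ := IsFractionRing.div_surjective (A := k[X]) A
    obtain ⟨b1, b2, hb2, hBb⟩ := IsFractionRing.div_surjective (A := k[X]) B
    have ha20 : a2 ≠ 0 := nonZeroDivisors.ne_zero ha2
    have hb20 : b2 ≠ 0 := nonZeroDivisors.ne_zero hb2
    have ha2' : algebraMap k[X] (RatFunc k) a2 ≠ 0 :=
      fun h => ha20 ((FaithfulSMul.algebraMap_eq_zero_iff _ _).mp h)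
    have hb2' : algebraMap k[X] (RatFunc k) b2 ≠ 0 :=
      fun h => hb20 ((FaithfulSMul.algebraMap_eq_zero_iff _ _).mp h)
    refine ⟨a2 * b2, mul_ne_zero ha20 hb20, ⟨a1 * a2 * b2 ^ 2, ?_⟩, ⟨b1 * a2 ^ 4 * b2 ^ 3, ?_⟩⟩
    · rw [← hAa]
      simp only [map_mul, map_pow]
      field_simp
    · rw [← hBb]
      simp only [map_mul, map_pow]
      field_simp
  obtain ⟨a, ha⟩ := hdA
  obtain ⟨b, hb⟩ := hdB
  have hd' : algebraMap k[X] (RatFunc k) d ≠ 0 :=
    fun h => hd ((FaithfulSMul.algebraMap_eq_zero_iff _ _).mp h)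
  refine ⟨⟨(Units.mk0 _ hd')⁻¹, x, s, t⟩, a, b, ?_⟩
  have hu : (((Units.mk0 _ hd')⁻¹⁻¹ : (RatFunc k)ˣ) : RatFunc k) =
      algebraMap k[X] (RatFunc k) d := by simp
  ext
  · rw [variableChange_a₁]
    simp only [hu, curve]
    rw [hs2]; ring
  · rw [variableChange_a₂]
    simp only [hu, curve]
    rw [← ha, hA]
  · rw [variableChange_a₃]
    simp only [hu, curve]
    rw [ht2]; ring
  · rw [variableChange_a₄]
    simp only [hu, curve]
    rw [← hb, hB]
  · rw [variableChange_a₆]
    simp only [hu, curve]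
    have h4K : (4 : RatFunc k) ≠ 0 := by
      have : (4 : RatFunc k) = 2 * 2 := by norm_num
      rw [this]; exact mul_ne_zero h2K h2K
    have key : W.a₆ + x * W.a₄ + x ^ 2 * W.a₂ + x ^ 3 - t * W.a₃ - t ^ 2 - x * t * W.a₁ = 0 := by
      apply (mul_eq_zero.mp ?_).resolve_left h4K
      simp only [WeierstrassCurve.b₂, WeierstrassCurve.b₄, WeierstrassCurve.b₆] at hx
      linear_combination hx + (-(2 * t + W.a₁ * x + W.a₃)) * ht2
    rw [key, mul_zero]

theorem smul_Δ_ne_zero {K : Type} [Field K] {W : WeierstrassCurve K} (hΔ : W.Δ ≠ 0)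
    (D : VariableChange K) : (D • W).Δ ≠ 0 := by
  rw [variableChange_Δ]
  exact mul_ne_zero (pow_ne_zero _ (Units.ne_zero _)) hΔ

/-- Good reduction outside a finite set. -/
theorem badness_placeOf (h2 : (2 : k) ≠ 0) {W : WeierstrassCurve (RatFunc k)} (hΔ : W.Δ ≠ 0)
    {D : VariableChange (RatFunc k)} {a b : k[X]} (hD : D • W = curve a b) {π : k[X]}
    (hπ : Irreducible π) (h1 : ¬ π ∣ b * (a ^ 2 - 4 * b)) : badness W (placeOf π hπ) = 0 := by
  set v := placeOf π hπ with hv
  have hX := X_mem_placeOf π hπ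
  have hn := nonunit_placeOf π hπ
  have hmodel : (model v hX a b).map (algebraMap v.ring (RatFunc k)) = D • W := by
    rw [model_map, one_smul, hD]
  have hΔm : (model v hX a b).Δ ∉ IsLocalRing.maximalIdeal v.ring := by
    rw [model_Δ, mem_max_iff v hX hπ hn]
    intro h
    apply h1
    rcases hπ.prime.dvd_or_dvd h with h | h
    · rcases hπ.prime.dvd_or_dvd h with h | h
      · exact absurd (isUnit_of_dvd_unit h (isUnit_sixteen h2)) hπ.not_isUnit
      · exact Dvd.dvd.mul_right (hπ.prime.dvd_of_dvd_pow h) _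
    · exact Dvd.dvd.mul_left h _
  have hgood := (type_of_model v.ring hΔ (model v hX a b) D hmodel
    (Or.inl fun h => hΔm (Ideal.pow_le_self (by norm_num) h))).1 hΔm
  rw [badness, if_pos hgood]

/-- The local polynomial modulo two in terms of the badness. -/
theorem locTwo_mul_badness (v : Place k (RatFunc k)) (h2 : (2 : k) ≠ 0)
    (hfin : Finite (IsLocalRing.ResidueField v.ring))
    {W : WeierstrassCurve (RatFunc k)} (ht : HasTwoTorsion W) :
    locTwo v.ring W * (1 + X) ^ (badness W v) = (1 + X) ^ 2 := by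
  unfold badness
  by_cases hg : (W.minimal v.ring).HasGoodReduction v.ring
  · rw [if_pos hg, pow_zero, mul_one]
    exact locTwo_good v.ring (isUnit_two_place h2 v) ht hg
  · rw [if_neg hg]
    by_cases hm : (W.minimal v.ring).HasMultiplicativeReduction v.ring
    · rw [if_pos hm, locTwo_mult v.ring hm]
      ring
    · rw [if_neg hm, locTwo_add v.ring, one_mul]
      rcases hasGoodReduction_or_hasMultiplicativeReduction_or_hasAdditiveReduction
        (R := v.ring) (W := W.minimal v.ring) with h | h | h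
      · exact absurd h hg
      · exact absurd h hm
      · exact h

variable [Finite k]

open Classical in
/-- The badness as a function of monic irreducible polynomials. -/
noncomputable def bad (W : WeierstrassCurve (RatFunc k)) (π : k[X]) : ℕ :=
  if h : Irreducible π then badness W (placeOf π h) else 0

theorem finite_places (v : Place k (RatFunc k)) :
    Finite (IsLocalRing.ResidueField v.ring) := by
  by_cases hX : RatFunc.X ∈ v.ring
  · obtain ⟨π, -, hπ, hn'⟩ := exists_irreducible_nonunit v hX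
    exact residue_finite v hX hπ hn'
  · rw [eq_placeInfty v hX]
    exact residue_finite_infty

/-- **The L-function modulo two and the bound for the analytic rank.** -/
theorem exponent_le_twoAdicBadness (h2 : (2 : k) ≠ 0) {W : WeierstrassCurve (RatFunc k)}
    (hΔ : W.Δ ≠ 0) (ht : HasTwoTorsion W) {n : ℕ} {g : ℤ[X]}
    (hg : (((1 - C (Nat.card k : ℤ) * X) ^ n * g : ℤ[X]) : PowerSeries ℤ) = LSeries k W) :
    n + 4 ≤ twoAdicBadness k W := by
  classical
  obtain ⟨D, a, b, hD⟩ := exists_curve h2 ht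
  have hΔ' : (curve a b).Δ ≠ 0 := by rw [← hD]; exact smul_Δ_ne_zero hΔ D
  have hbb : b * (a ^ 2 - 4 * b) ≠ 0 := by
    intro h
    apply hΔ'
    rw [curve_Δ, show 16 * b ^ 2 * (a ^ 2 - 4 * b) = 16 * b * (b * (a ^ 2 - 4 * b)) by ring, h,
      mul_zero, map_zero]
  set S : Finset k[X] := primesOf (b * (a ^ 2 - 4 * b)) with hS
  have hmemS : ∀ π : k[X], π ∈ S ↔ π.Monic ∧ Irreducible π ∧ π ∣ b * (a ^ 2 - 4 * b) := by
    intro π
    rw [hS]
    unfold primesOf
    rw [Finset.mem_filter, mem_irrLE]
    constructor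
    · rintro ⟨⟨h5, h6, h7⟩, h8⟩
      exact ⟨h5, h6, h8⟩
    · rintro ⟨h5, h6, h7⟩
      exact ⟨⟨h5, h6, natDegree_le_of_dvd h7 hbb⟩, h7⟩
  have hbad : ∀ {π : k[X]} (hπ : Irreducible π), bad W π = badness W (placeOf π hπ) := by
    intro π hπ
    rw [bad, dif_pos hπ]
  have hSS : ∀ π ∈ S, π.Monic ∧ Irreducible π := fun π hπ =>
    ⟨((hmemS π).mp hπ).1, ((hmemS π).mp hπ).2.1⟩
  have hL := LSeries_two h2 W S hSS (bad W) (badness W (placeInfty k))
    (fun π hπ _ => by
      rw [hbad hπ]
      exact locTwo_mul_badness _ h2 (finite_places _) ht)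
    (fun π hm hπ hnS => by
      rw [hbad hπ]
      exact badness_placeOf h2 hΔ hD hπ (fun h => hnS ((hmemS π).mpr ⟨hm, hπ, h⟩)))
    (locTwo_mul_badness _ h2 (finite_places _) ht)
  have hle := exponent_le h2 W S hSS (bad W) (badness W (placeInfty k)) hL hg
  refine hle.trans (le_of_eq ?_)
  -- the finite sum over all places
  unfold twoAdicBadness
  set f : Place k (RatFunc k) → ℕ := fun v => badness W v * 2 ^ (padicValNat 2 v.degree) with hf
  set gS : Option {π // π ∈ S} → Place k (RatFunc k) := fun o =>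
    match o with
    | none => placeInfty k
    | some π => placeOf π.1 (hSS π.1 π.2).2 with hgS
  have hinj : Function.Injective gS := by
    have hne : ∀ π : {π // π ∈ S}, placeOf π.1 (hSS π.1 π.2).2 ≠ placeInfty k := by
      intro π h
      apply X_not_mem_placeInfty k
      rw [← h]
      exact X_mem_placeOf _ _
    rintro (_ | π) (_ | π') h
    · rfl
    · exact absurd h.symm (hne π')
    · exact absurd h (hne π)
    · congr 1
      exact Subtype.ext (placeOf_injective _ _ (hSS π.1 π.2).1 (hSS π'.1 π'.2).1 h)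
  have hsupp : Function.support f ⊆ Set.range gS := by
    intro v hv
    by_cases hX : RatFunc.X ∈ v.ring
    · obtain ⟨π, hm, hπ, hn'⟩ := exists_irreducible_nonunit v hX
      have hveq := eq_placeOf v hX hπ hn'
      by_cases hπS : π ∈ S
      · exact ⟨some ⟨π, hπS⟩, hveq.symm⟩
      · exfalso
        apply hv
        rw [hf]
        simp only
        rw [hveq, badness_placeOf h2 hΔ hD hπ (fun h => hπS ((hmemS π).mpr ⟨hm, hπ, h⟩)),
          zero_mul]
    · exact ⟨none, (eq_placeInfty v hX).symm⟩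
  have h5 : ∑ᶠ v, f v = ∑ᶠ (v) (_ : v ∈ Set.range gS), f v := by
    rw [← finsum_mem_univ]
    apply finsum_mem_inter_support_eq
    rw [Set.univ_inter, Set.inter_eq_right.mpr hsupp]
  rw [h5, finsum_mem_range hinj, finsum_eq_sum_of_fintype, Fintype.sum_option]
  congr 1
  · change _ = badness W (placeInfty k) * 2 ^ (padicValNat 2 (placeInfty k).degree)
    rw [degree_placeInfty]
    simp
  · rw [← Finset.sum_coe_sort S]
    apply Finset.sum_congr rfl
    intro π _
    change _ = badness W (placeOf π.1 (hSS π.1 π.2).2) *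
      2 ^ (padicValNat 2 (placeOf π.1 (hSS π.1 π.2).2).degree)
    rw [degree_placeOf, hbad (hSS π.1 π.2).2]

end Two

end Pool.Agent.BSDFF
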