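import Pool.Agent.Lib.MP_48b749_nt.Two.QuadInf
import Pool.Agent.Lib.MP_48b749_nt.LegRank
import Pool.Agent.Lib.MP_48b749_nt.LegAlpha
import Pool.Agent.Lib.MP_48b749_nt.Points
import Pool.Agent.Lib.MP_48b749_nt.Two.TwoDescent

/-!
# A family with four polynomial parameters, a rational point of order two and rank two
-/

set_option autoImplicit false

open Polynomial

namespace Pool.Agent.BSDFF.Two

open Pool.Agent.Lib.MP_48b749_nt.Loc WeierstrassCurve

variable {k : Type} [Field k]

/-- the coefficient of `x ^ 2` -/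
noncomputable def qA (p q s d : k[X]) : k[X] := s ^ 2 - p * q - (p - s + d) * (q - s - d)

/-- the coefficient of `x` -/
noncomputable def qB (p q s d : k[X]) : k[X] := p * q * ((p - s + d) * (q - s - d))

/-- `a ^ 2 - 4 * b` -/
noncomputable def qD (p q s d : k[X]) : k[X] := qA p q s d ^ 2 - 4 * qB p q s d

/-- The conditions on the four parameters. -/
structure Quad (p q s d : k[X]) : Prop where
  sp : s.natDegree < p.natDegree
  sq : s.natDegree < q.natDegree
  dp : d.natDegree < p.natDegree
  dq : d.natDegree < q.natDegree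
  op : Odd p.natDegree
  oq : Odd q.natDegree
  ip : Irreducible p
  iq : Irreducible q
  ip' : Irreducible (p - s + d)
  iq' : Irreducible (q - s - d)
  iD : Irreducible (qD p q s d)
  oD : Odd (qD p q s d).natDegree
  sf : Squarefree (qB p q s d * qD p q s d)

/-- the bound for the exponent when all the finite bad reduction is multiplicative at primes of odd
degree -/
theorem exponent_le_card [Finite k] (h2 : (2 : k) ≠ 0) {a b : k[X]} (hb : b ≠ 0)
    (hb' : a ^ 2 - 4 * b ≠ 0) (S : Finset k[X])
    (hS : ∀ π ∈ S, π.Monic ∧ Irreducible π ∧ Odd π.natDegree)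
    (hout : ∀ π : k[X], π.Monic → Irreducible π → π ∉ S → ¬ π ∣ b ∧ ¬ π ∣ a ^ 2 - 4 * b)
    (hin : ∀ π ∈ S, ¬ π ∣ a ∧ (π ∣ b ∨ π ∣ a ^ 2 - 4 * b))
    (hinf : locTwo (placeInfty k).ring (curve a b) = 1 + X) {n : ℕ} {g : ℤ[X]}
    (hg : (((1 - C (Nat.card k : ℤ) * X) ^ n * g : ℤ[X]) : PowerSeries ℤ) =
      LSeries k (curve a b)) : n + 3 ≤ S.card := by
  classical
  have hL := LSeries_two h2 (curve a b) S (fun π hπ => ⟨(hS π hπ).1, (hS π hπ).2.1⟩)
    (fun π => if π ∈ S then 1 else 0) 1 (by
      intro π hπ hπm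
      split_ifs with h
      · rw [locTwo_mult_place h2 hb hb' hπ (hin π h).1 (hin π h).2, pow_one, pow_two]
      · obtain ⟨h5, h6⟩ := hout π hπm hπ h
        rw [locTwo_good_place h2 hb hb' hπ h5 h6, pow_zero, mul_one]) (by
      intro π _ _ h
      exact if_neg h) (by rw [hinf, pow_one, pow_two])
  have h1 := exponent_le h2 (curve a b) S (fun π hπ => ⟨(hS π hπ).1, (hS π hπ).2.1⟩) _ 1 hL hg
  have h3 : ∑ π ∈ S, (if π ∈ S then 1 else 0) * 2 ^ (padicValNat 2 π.natDegree) = S.card := by
    rw [Finset.card_eq_sum_ones]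
    apply Finset.sum_congr rfl
    intro π hπ
    have h4 : padicValNat 2 π.natDegree = 0 := by
      apply padicValNat.eq_zero_of_not_dvd
      have := (hS π hπ).2.2
      rw [Nat.odd_iff] at this
      omega
    rw [if_pos hπ, h4, pow_zero, mul_one]
  rw [h3] at h1
  omega

namespace Quad

variable {p q s d : k[X]}

theorem np' (h : Quad p q s d) : (p - s + d).natDegree = p.natDegree := by
  have h1 : (p - s).natDegree = p.natDegree := natDegree_sub_eq_left_of_natDegree_lt h.sp
  rw [natDegree_add_eq_left_of_natDegree_lt, h1]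
  rw [h1]; exact h.dp

theorem nq' (h : Quad p q s d) : (q - s - d).natDegree = q.natDegree := by
  have h1 : (q - s).natDegree = q.natDegree := natDegree_sub_eq_left_of_natDegree_lt h.sq
  rw [natDegree_sub_eq_left_of_natDegree_lt, h1]
  rw [h1]; exact h.dq

theorem b_ne (h : Quad p q s d) : qB p q s d ≠ 0 :=
  mul_ne_zero (mul_ne_zero h.ip.ne_zero h.iq.ne_zero) (mul_ne_zero h.ip'.ne_zero h.iq'.ne_zero)

theorem D_ne (h : Quad p q s d) : qD p q s d ≠ 0 := h.iD.ne_zero

theorem nb (h : Quad p q s d) : (qB p q s d).natDegree = 2 * (p.natDegree + q.natDegree) := by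
  unfold qB
  rw [natDegree_mul (mul_ne_zero h.ip.ne_zero h.iq.ne_zero)
    (mul_ne_zero h.ip'.ne_zero h.iq'.ne_zero), natDegree_mul h.ip.ne_zero h.iq.ne_zero,
    natDegree_mul h.ip'.ne_zero h.iq'.ne_zero, h.np', h.nq']
  ring

theorem na (h : Quad p q s d) : (qA p q s d).natDegree ≤ p.natDegree + q.natDegree := by
  unfold qA
  have h1 := h.sp
  have h2 := h.sq
  have h3 := h.np'
  have h4 := h.nq'
  refine (natDegree_sub_le_of_le (m := p.natDegree + q.natDegree) (n := p.natDegree + q.natDegree)
    ?_ ?_).trans (by simp)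
  · refine (natDegree_sub_le_of_le (m := p.natDegree + q.natDegree)
      (n := p.natDegree + q.natDegree) ?_ natDegree_mul_le).trans (by simp)
    refine (natDegree_pow_le_of_le 2 le_rfl).trans (by omega)
  · exact natDegree_mul_le.trans (by omega)

/-- the difference of the two products has smaller degree -/
theorem ndiff (h : Quad p q s d) :
    (p * q - (p - s + d) * (q - s - d)).natDegree < p.natDegree + q.natDegree := by
  have h1 : p * q - (p - s + d) * (q - s - d) = p * (s + d) + (s - d) * (q - s - d) := by ring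
  have h2 := h.sp
  have h3 := h.sq
  have h4 := h.dp
  have h5 := h.dq
  have h6 := h.nq'
  rw [h1]
  have e1 : (s + d).natDegree ≤ max s.natDegree d.natDegree := natDegree_add_le _ _
  have e2 : (s - d).natDegree ≤ max s.natDegree d.natDegree := natDegree_sub_le _ _
  have e3 : (p * (s + d)).natDegree ≤ p.natDegree + (s + d).natDegree := natDegree_mul_le
  have e4 : ((s - d) * (q - s - d)).natDegree ≤ (s - d).natDegree + (q - s - d).natDegree :=
    natDegree_mul_le
  have e5 := natDegree_add_le (p * (s + d)) ((s - d) * (q - s - d))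
  omega

theorem nD (h : Quad p q s d) : (qD p q s d).natDegree < 2 * (p.natDegree + q.natDegree) := by
  have h1 : qD p q s d = (p * q - (p - s + d) * (q - s - d)) ^ 2 -
      2 * s ^ 2 * (p * q + (p - s + d) * (q - s - d)) + (s ^ 2) ^ 2 := by
    unfold qD qA qB; ring
  have h2 := h.sp
  have h3 := h.sq
  have h6 := h.nq'
  have h7 := h.np'
  have h8 := h.ndiff
  set f := p * q - (p - s + d) * (q - s - d) with hf
  set g := p * q + (p - s + d) * (q - s - d) with hgd
  have e1 : (f ^ 2).natDegree ≤ 2 * f.natDegree := natDegree_pow_le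
  have e2 : (s ^ 2).natDegree ≤ 2 * s.natDegree := natDegree_pow_le
  have e3 : ((s ^ 2) ^ 2).natDegree ≤ 2 * (s ^ 2).natDegree := natDegree_pow_le
  have e4 : (2 * s ^ 2).natDegree ≤ (s ^ 2).natDegree := by
    have h9 : (2 : k[X]) = C 2 := (C_ofNat 2).symm
    rw [h9]
    exact natDegree_C_mul_le _ _
  have e5 : (2 * s ^ 2 * g).natDegree ≤ (2 * s ^ 2).natDegree + g.natDegree := natDegree_mul_le
  have e6 : g.natDegree ≤ max (p * q).natDegree ((p - s + d) * (q - s - d)).natDegree :=
    natDegree_add_le _ _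
  have e7 : (p * q).natDegree ≤ p.natDegree + q.natDegree := natDegree_mul_le
  have e8 : ((p - s + d) * (q - s - d)).natDegree ≤ (p - s + d).natDegree + (q - s - d).natDegree :=
    natDegree_mul_le
  have e9 := natDegree_add_le (f ^ 2 - 2 * s ^ 2 * g) ((s ^ 2) ^ 2)
  have e10 := natDegree_sub_le (f ^ 2) (2 * s ^ 2 * g)
  rw [h1]
  omega

/-- a prime factor of `b` or `D` does not divide `a` -/
theorem not_dvd_a (h2 : (2 : k) ≠ 0) (h : Quad p q s d) {π : k[X]} (hπ : Irreducible π)
    (hd : π ∣ qB p q s d ∨ π ∣ qD p q s d) : ¬ π ∣ qA p q s d := by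
  intro ha
  have h4 : IsUnit (4 : k[X]) := Pool.Agent.Lib.MP_48b749_nt.Two.isUnit_four h2
  have hbD : π ∣ qB p q s d ∧ π ∣ qD p q s d := by
    rcases hd with hd | hd
    · refine ⟨hd, ?_⟩
      unfold qD
      exact dvd_sub (dvd_pow ha two_ne_zero) (Dvd.dvd.mul_left hd _)
    · refine ⟨?_, hd⟩
      have h5 : π ∣ 4 * qB p q s d := by
        have h6 : 4 * qB p q s d = qA p q s d ^ 2 - qD p q s d := by unfold qD; ring
        rw [h6]
        exact dvd_sub (dvd_pow ha two_ne_zero) hd
      exact (h4.dvd_mul_left).mp h5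
  exact hπ.not_isUnit (h.sf π (mul_dvd_mul hbD.1 hbD.2))

section
open scoped Classical

/-- the bad primes -/
noncomputable def badP (p q s d : k[X]) : Finset k[X] :=
  {normalize p, normalize q, normalize (p - s + d), normalize (q - s - d),
    normalize (qD p q s d)}

theorem mem_badP (π : k[X]) : π ∈ badP p q s d ↔ π = normalize p ∨ π = normalize q ∨
    π = normalize (p - s + d) ∨ π = normalize (q - s - d) ∨ π = normalize (qD p q s d) := by
  unfold badP
  simp

theorem card_badP : (badP p q s d).card ≤ 5 := by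
  unfold badP
  exact Finset.card_le_five

theorem normalize_dvd (f : k[X]) : normalize f ∣ f := (associated_normalize f).symm.dvd

theorem prop_normalize {f : k[X]} (hf : Irreducible f) (ho : Odd f.natDegree) :
    (normalize f).Monic ∧ Irreducible (normalize f) ∧ Odd (normalize f).natDegree := by
  refine ⟨monic_normalize hf.ne_zero, (associated_normalize f).irreducible hf, ?_⟩
  rw [natDegree_eq_of_degree_eq degree_normalize]
  exact ho

theorem eq_normalize {π f : k[X]} (hm : π.Monic) (hπ : Irreducible π) (hf : Irreducible f)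
    (hd : π ∣ f) : π = normalize f :=
  eq_of_monic_of_associated hm (monic_normalize hf.ne_zero)
    ((hπ.associated_of_dvd hf hd).trans (associated_normalize f))

/-- **the analytic side** -/
theorem exponent_le_two [Finite k] (h2 : (2 : k) ≠ 0) (h : Quad p q s d) {n : ℕ} {g : ℤ[X]}
    (hg : (((1 - C (Nat.card k : ℤ) * X) ^ n * g : ℤ[X]) : PowerSeries ℤ) =
      LSeries k (curve (qA p q s d) (qB p q s d))) : n ≤ 2 := by
  have hN : ∃ N, p.natDegree + q.natDegree = 2 * N := by
    obtain ⟨u, hu⟩ := h.op
    obtain ⟨v, hv⟩ := h.oq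
    exact ⟨u + v + 1, by omega⟩
  obtain ⟨N, hN⟩ := hN
  have hinf := locTwo_infty_mult h2 (a := qA p q s d) (b := qB p q s d) (N := N)
    (by rw [← hN]; exact h.na) (by rw [h.nb, hN]; ring) h.D_ne
    (by
      have h1 := h.nD
      rw [hN] at h1
      have h3 : qA p q s d ^ 2 - 4 * qB p q s d = qD p q s d := rfl
      rw [h3]
      omega)
  have h1 := exponent_le_card h2 h.b_ne h.D_ne (badP p q s d) (by
    intro π hπ
    rw [mem_badP] at hπ
    rcases hπ with rfl | rfl | rfl | rfl | rfl
    · exact prop_normalize h.ip h.op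
    · exact prop_normalize h.iq h.oq
    · exact prop_normalize h.ip' (by rw [h.np']; exact h.op)
    · exact prop_normalize h.iq' (by rw [h.nq']; exact h.oq)
    · exact prop_normalize h.iD h.oD) (by
    intro π hm hπ hnot
    rw [mem_badP] at hnot
    push Not at hnot
    obtain ⟨n1, n2, n3, n4, n5⟩ := hnot
    constructor
    · intro hd
      unfold qB at hd
      rcases hπ.prime.dvd_or_dvd hd with hd | hd
      · rcases hπ.prime.dvd_or_dvd hd with hd | hd
        · exact n1 (eq_normalize hm hπ h.ip hd)
        · exact n2 (eq_normalize hm hπ h.iq hd)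
      · rcases hπ.prime.dvd_or_dvd hd with hd | hd
        · exact n3 (eq_normalize hm hπ h.ip' hd)
        · exact n4 (eq_normalize hm hπ h.iq' hd)
    · intro hd
      exact n5 (eq_normalize hm hπ h.iD hd)) (by
    intro π hπ
    rw [mem_badP] at hπ
    have key : (π ∣ qB p q s d ∨ π ∣ qD p q s d) ∧ Irreducible π := by
      rcases hπ with rfl | rfl | rfl | rfl | rfl
      · exact ⟨Or.inl (((normalize_dvd p).mul_right q).mul_right _),
          (associated_normalize _).irreducible h.ip⟩
      · exact ⟨Or.inl (((normalize_dvd q).mul_left p).mul_right _),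
          (associated_normalize _).irreducible h.iq⟩
      · exact ⟨Or.inl (((normalize_dvd (p - s + d)).mul_right (q - s - d)).mul_left _),
          (associated_normalize _).irreducible h.ip'⟩
      · exact ⟨Or.inl (((normalize_dvd (q - s - d)).mul_left (p - s + d)).mul_left _),
          (associated_normalize _).irreducible h.iq'⟩
      · exact ⟨Or.inr (normalize_dvd _), (associated_normalize _).irreducible h.iD⟩
    exact ⟨h.not_dvd_a h2 key.2 key.1, key.1⟩) hinf hg
  have h3 := card_badP (p := p) (q := q) (s := s) (d := d)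
  omega

end

end Quad

end Pool.Agent.BSDFF.Two
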