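import Pool.Agent.Lib.MP_48b749_nt.Two.Quad
import Pool.Agent.Lib.MP_48b749_nt.LegExist

/-!
# Members of the four parameter family of unbounded degree
-/

set_option autoImplicit false

open Polynomial

namespace Pool.Agent.BSDFF.Two

variable {k : Type} [Field k]

namespace Quad

/-- `a ^ 2 - 4 b` for the special members: a linear polynomial in `u` -/
theorem qD_special (h2 : (2 : k) ≠ 0) (u : k[X]) (σ δ τ : k) :
    qD (u + C ((σ - δ + τ) / 2)) (u + C ((σ + δ - τ) / 2)) (C σ) (C δ) =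
      C (4 * σ * δ * τ) * u + C (σ ^ 2 * δ ^ 2 + δ ^ 2 * τ ^ 2 + τ ^ 2 * σ ^ 2) := by
  obtain ⟨x, hx⟩ : ∃ x : k, (σ - δ + τ) / 2 = x := ⟨_, rfl⟩
  obtain ⟨y, hy⟩ : ∃ y : k, (σ + δ - τ) / 2 = y := ⟨_, rfl⟩
  have hx' : σ - δ + τ = 2 * x := by rw [← hx]; field_simp
  have hy' : σ + δ - τ = 2 * y := by rw [← hy]; field_simp
  have hσ : σ = x + y := by
    have h : 2 * σ = 2 * (x + y) := by linear_combination hx' + hy'
    exact mul_left_cancel₀ h2 h
  have hτ : τ = x - y + δ := by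
    have h : 2 * τ = 2 * (x - y + δ) := by linear_combination hx' - hy'
    exact mul_left_cancel₀ h2 h
  rw [hx, hy, hσ, hτ]
  unfold qD qA qB
  simp only [map_add, map_sub, map_mul, map_pow, map_ofNat]
  ring

theorem isCoprime_add_C (u : k[X]) {a b : k} (h : a ≠ b) : IsCoprime (u + C a) (u + C b) := by
  have h1 : a - b ≠ 0 := sub_ne_zero.mpr h
  refine ⟨C (a - b)⁻¹, -C (a - b)⁻¹, ?_⟩
  have h2 : C (a - b)⁻¹ * (C a - C b) = (1 : k[X]) := by
    rw [← C_sub, ← C_mul, inv_mul_cancel₀ h1, C_1]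
  linear_combination h2

theorem sqf_mul {f g : k[X]} (hf : Squarefree f) (hg : Squarefree g) (h : IsCoprime f g) :
    Squarefree (f * g) := squarefree_mul_iff.mpr ⟨h.isRelPrime, hf, hg⟩

/-- the special members -/
theorem special (h2 : (2 : k) ≠ 0) {u : k[X]} {σ δ τ : k} (hodd : Odd u.natDegree)
    (hσ : σ ≠ 0) (hδ : δ ≠ 0) (hτ : τ ≠ 0)
    (n1 : σ + δ ≠ 0) (n2 : σ - δ ≠ 0) (n3 : δ + τ ≠ 0) (n4 : δ - τ ≠ 0) (n5 : τ + σ ≠ 0)
    (n6 : τ - σ ≠ 0)
    (m1 : σ * δ + δ * τ + τ * σ ≠ 0) (m2 : σ * δ + δ * τ - τ * σ ≠ 0)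
    (m3 : σ * δ - δ * τ + τ * σ ≠ 0) (m4 : -(σ * δ) + δ * τ + τ * σ ≠ 0)
    (i1 : Irreducible (u + C ((σ - δ + τ) / 2))) (i2 : Irreducible (u + C ((-σ + δ + τ) / 2)))
    (i3 : Irreducible (u + C ((σ + δ - τ) / 2))) (i4 : Irreducible (u + C ((-σ - δ - τ) / 2)))
    (i5 : Irreducible (u + C ((σ ^ 2 * δ ^ 2 + δ ^ 2 * τ ^ 2 + τ ^ 2 * σ ^ 2) /
      (4 * σ * δ * τ)))) :
    Quad (u + C ((σ - δ + τ) / 2)) (u + C ((σ + δ - τ) / 2)) (C σ) (C δ) := by
  have h4 : (4 : k) ≠ 0 := by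
    have : (4 : k) = 2 ^ 2 := by norm_num
    rw [this]; exact pow_ne_zero _ h2
  have hκ : 4 * σ * δ * τ ≠ 0 := mul_ne_zero (mul_ne_zero (mul_ne_zero h4 hσ) hδ) hτ
  have hpos : 0 < u.natDegree := by
    rcases Nat.eq_zero_or_pos u.natDegree with h | h
    · rw [h] at hodd; simp at hodd
    · exact h
  have hp' : u + C ((σ - δ + τ) / 2) - C σ + C δ = u + C ((-σ + δ + τ) / 2) := by
    have h : C ((σ - δ + τ) / 2) - C σ + C δ = C ((-σ + δ + τ) / 2) := by
      rw [← C_sub, ← C_add]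
      congr 1
      field_simp
      ring
    linear_combination h
  have hq' : u + C ((σ + δ - τ) / 2) - C σ - C δ = u + C ((-σ - δ - τ) / 2) := by
    have h : C ((σ + δ - τ) / 2) - C σ - C δ = C ((-σ - δ - τ) / 2) := by
      rw [← C_sub, ← C_sub]
      congr 1
      field_simp
      ring
    linear_combination h
  have hD : qD (u + C ((σ - δ + τ) / 2)) (u + C ((σ + δ - τ) / 2)) (C σ) (C δ) =
      C (4 * σ * δ * τ) * (u + C ((σ ^ 2 * δ ^ 2 + δ ^ 2 * τ ^ 2 + τ ^ 2 * σ ^ 2) /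
        (4 * σ * δ * τ))) := by
    rw [qD_special h2, mul_add, ← C_mul (a := 4 * σ * δ * τ)
      (b := (σ ^ 2 * δ ^ 2 + δ ^ 2 * τ ^ 2 + τ ^ 2 * σ ^ 2) / (4 * σ * δ * τ)),
      mul_div_cancel₀ _ hκ]
  have hB : qB (u + C ((σ - δ + τ) / 2)) (u + C ((σ + δ - τ) / 2)) (C σ) (C δ) =
      (u + C ((σ - δ + τ) / 2)) * (u + C ((σ + δ - τ) / 2)) *
        ((u + C ((-σ + δ + τ) / 2)) * (u + C ((-σ - δ - τ) / 2))) := by
    unfold qB
    rw [hp', hq']
  have hunit : IsUnit (C (4 * σ * δ * τ) : k[X]) := isUnit_C.mpr hκ.isUnit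
  -- the differences of the constants
  have half : ∀ {x y z : k}, z ≠ 0 → x - y = 2 * z → x / 2 ≠ y / 2 := by
    intro x y z hz h e
    have h5 : x - y = 0 := by
      have h6 : x / 2 - y / 2 = (x - y) / 2 := by ring
      rw [e, sub_self] at h6
      have h7 := h6.symm
      rw [div_eq_zero_iff] at h7
      exact h7.resolve_right h2
    rw [h5] at h
    exact mul_ne_zero h2 hz h.symm
  have d13 : (σ - δ + τ) / 2 ≠ (σ + δ - τ) / 2 := half (neg_ne_zero.mpr n4) (by ring)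
  have d12 : (σ - δ + τ) / 2 ≠ (-σ + δ + τ) / 2 := half n2 (by ring)
  have d14 : (σ - δ + τ) / 2 ≠ (-σ - δ - τ) / 2 := half n5 (by ring)
  have d32 : (σ + δ - τ) / 2 ≠ (-σ + δ + τ) / 2 := half (neg_ne_zero.mpr n6) (by ring)
  have d34 : (σ + δ - τ) / 2 ≠ (-σ - δ - τ) / 2 := half n1 (by ring)
  have d24 : (-σ + δ + τ) / 2 ≠ (-σ - δ - τ) / 2 := half n3 (by ring)
  have five : ∀ {x y : k}, y ≠ 0 → σ ^ 2 * δ ^ 2 + δ ^ 2 * τ ^ 2 + τ ^ 2 * σ ^ 2 -
      2 * σ * δ * τ * x = y ^ 2 → x / 2 ≠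
      (σ ^ 2 * δ ^ 2 + δ ^ 2 * τ ^ 2 + τ ^ 2 * σ ^ 2) / (4 * σ * δ * τ) := by
    intro x y hy h e
    apply pow_ne_zero 2 hy
    rw [← h]
    rw [eq_div_iff hκ] at e
    have h5 : x / 2 * (4 * σ * δ * τ) = 2 * σ * δ * τ * x := by
      have : (4 : k) = 2 * 2 := by norm_num
      rw [this]
      field_simp
    rw [h5] at e
    rw [e, sub_self]
  have d15 := five (x := σ - δ + τ) m2 (by ring)
  have d35 := five (x := σ + δ - τ) m4 (by ring)
  have d25 := five (x := -σ + δ + τ) m3 (by ring)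
  have d45 := five (x := -σ - δ - τ) m1 (by ring)
  refine ⟨?_, ?_, ?_, ?_, ?_, ?_, i1, i3, ?_, ?_, ?_, ?_, ?_⟩
  · rw [natDegree_C, natDegree_add_C]; exact hpos
  · rw [natDegree_C, natDegree_add_C]; exact hpos
  · rw [natDegree_C, natDegree_add_C]; exact hpos
  · rw [natDegree_C, natDegree_add_C]; exact hpos
  · rw [natDegree_add_C]; exact hodd
  · rw [natDegree_add_C]; exact hodd
  · rw [hp']; exact i2
  · rw [hq']; exact i4
  · rw [hD, irreducible_isUnit_mul hunit]; exact i5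
  · rw [hD, natDegree_C_mul hκ, natDegree_add_C]; exact hodd
  · rw [hB, hD, mul_left_comm]
    refine sqf_mul hunit.squarefree ?_ (isCoprime_one_left.of_isCoprime_of_dvd_left
      (isUnit_iff_dvd_one.mp hunit))
    refine sqf_mul (sqf_mul (sqf_mul i1.squarefree i3.squarefree (isCoprime_add_C u d13))
      (sqf_mul i2.squarefree i4.squarefree (isCoprime_add_C u d24)) ?_) i5.squarefree ?_
    · exact (((isCoprime_add_C u d12).mul_right (isCoprime_add_C u d14)).mul_left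
        ((isCoprime_add_C u d32).mul_right (isCoprime_add_C u d34)))
    · exact ((isCoprime_add_C u d15).mul_left (isCoprime_add_C u d35)).mul_left
        ((isCoprime_add_C u d25).mul_left (isCoprime_add_C u d45))

/-- the five polynomials can be made irreducible -/
theorem exists_u [Finite k] {l : ℕ} (hl : l.Prime) (hlq : l ∣ Nat.card k - 1) (E : Finset k)
    (hE : E.card < l) (hl2 : l ≠ 2) (N : ℕ) :
    ∃ u : k[X], N ≤ u.natDegree ∧ Odd u.natDegree ∧ ∀ e ∈ E, Irreducible (u + C e) := by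
  classical
  have hfin : Fintype k := Fintype.ofFinite k
  have hq1 : 1 < Nat.card k := Finite.one_lt_card
  have hlk : l ≤ Nat.card k - 1 := Nat.le_of_dvd (by omega) hlq
  obtain ⟨β, hβ⟩ : ∃ β : k, β ∉ E.image (fun e => -e) := by
    by_contra hcon
    push Not at hcon
    have h1 : (Finset.univ : Finset k) ⊆ E.image (fun e => -e) := fun y _ => hcon y
    have h3 := Finset.card_le_card h1
    have h5 := Finset.card_image_le (s := E) (f := fun e => -e)
    rw [Finset.card_univ, ← Nat.card_eq_fintype_card] at h3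
    omega
  obtain ⟨α, hα0, hα⟩ := exists_avoid hlq (E.image (fun e => -(β + e)))
    (lt_of_le_of_lt Finset.card_image_le hE)
  have hdeg : (C α * X ^ (l ^ (N + 1)) + C β).natDegree = l ^ (N + 1) := by
    rw [natDegree_add_C, natDegree_C_mul_X_pow _ _ hα0]
  refine ⟨C α * X ^ (l ^ (N + 1)) + C β, ?_, ?_, ?_⟩
  · rw [hdeg]
    calc N ≤ N + 1 := Nat.le_succ N
      _ ≤ l ^ (N + 1) := (Nat.lt_pow_self hl.one_lt).le
  · rw [hdeg]
    exact (hl.odd_of_ne_two hl2).pow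
  · intro e he
    have h1 : C α * X ^ (l ^ (N + 1)) + C β + C e =
        C α * (X ^ (l ^ (N + 1)) - C (-(β + e) / α)) := by
      rw [mul_sub, ← C_mul, mul_div_cancel₀ _ hα0, C_neg, C_add]
      ring
    have h3 : -(β + e) ≠ 0 := by
      intro h
      apply hβ
      rw [Finset.mem_image]
      exact ⟨e, he, by linear_combination h⟩
    rw [h1, irreducible_isUnit_mul (isUnit_C.mpr hα0.isUnit)]
    apply X_pow_sub_C_irreducible_of_prime_pow hl hl2
    exact hα _ (Finset.mem_image.mpr ⟨e, he, rfl⟩) h3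

/-- the constants exist as soon as the field has more than nine elements -/
theorem exists_constants [Finite k] (hk : 9 < Nat.card k) :
    ∃ σ δ τ : k, σ ≠ 0 ∧ δ ≠ 0 ∧ τ ≠ 0 ∧ σ + δ ≠ 0 ∧ σ - δ ≠ 0 ∧ δ + τ ≠ 0 ∧ δ - τ ≠ 0 ∧
      τ + σ ≠ 0 ∧ τ - σ ≠ 0 ∧ σ * δ + δ * τ + τ * σ ≠ 0 ∧ σ * δ + δ * τ - τ * σ ≠ 0 ∧
      σ * δ - δ * τ + τ * σ ≠ 0 ∧ -(σ * δ) + δ * τ + τ * σ ≠ 0 := by
  classical
  have hfin : Fintype k := Fintype.ofFinite k
  have avoid : ∀ T : Finset k, T.card ≤ 9 → ∃ x : k, x ∉ T := by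
    intro T hT
    by_contra hcon
    push Not at hcon
    have h1 : (Finset.univ : Finset k) ⊆ T := fun y _ => hcon y
    have h3 := Finset.card_le_card h1
    rw [Finset.card_univ, ← Nat.card_eq_fintype_card] at h3
    omega
  obtain ⟨b, hb⟩ := avoid {0, 1, -1} (Finset.card_le_three.trans (by norm_num))
  obtain ⟨c, hc⟩ := avoid {0, 1, -1, b, -b, 1 + b, -(1 + b), 1 - b, -(1 - b)} (by
    iterate 8 refine (Finset.card_insert_le _ _).trans (Nat.succ_le_succ ?_)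
    exact (Finset.card_singleton _).le)
  simp only [Finset.mem_insert, Finset.mem_singleton, not_or] at hb hc
  obtain ⟨b0, b1, b2⟩ := hb
  obtain ⟨c0, c1, c2, c3, c4, c5, c6, c7, c8⟩ := hc
  have e1 : b * b⁻¹ = 1 := mul_inv_cancel₀ b0
  have e2 : c * c⁻¹ = 1 := mul_inv_cancel₀ c0
  refine ⟨1, b⁻¹, c⁻¹, one_ne_zero, inv_ne_zero b0, inv_ne_zero c0, ?_, ?_, ?_, ?_, ?_, ?_, ?_, ?_,
    ?_, ?_⟩
  · intro h
    apply b2
    linear_combination b * h - e1
  · intro h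
    apply b1
    linear_combination b * h + e1
  · intro h
    apply c4
    linear_combination b * c * h - c * e1 - b * e2
  · intro h
    apply c3
    linear_combination b * c * h - c * e1 + b * e2
  · intro h
    apply c2
    linear_combination c * h - e2
  · intro h
    apply c1
    linear_combination -c * h + e2
  · intro h
    apply c6
    linear_combination b * c * h - c * e1 - (c * c⁻¹) * e1 - e2 - b * e2
  · intro h
    apply c8
    linear_combination b * c * h - c * e1 - (c * c⁻¹) * e1 - e2 + b * e2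
  · intro h
    apply c7
    linear_combination b * c * h - c * e1 + (c * c⁻¹) * e1 + e2 - b * e2
  · intro h
    apply c5
    linear_combination -b * c * h - c * e1 + (c * c⁻¹) * e1 + e2 + b * e2

/-- **Members of unbounded degree.** -/
theorem exists_quad (h2 : (2 : k) ≠ 0) [Finite k] {l : ℕ} (hl : l.Prime) (h7 : 7 ≤ l)
    (hlq : l ∣ Nat.card k - 1) (N : ℕ) :
    ∃ p q s d : k[X], N ≤ p.natDegree ∧ Quad p q s d := by
  classical
  have hq1 : 1 < Nat.card k := Finite.one_lt_card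
  have hl2 : l ≠ 2 := by omega
  have hodd : Odd (Nat.card k) := by
    have h := card_odd k h2
    exact (ZMod.natCast_eq_one_iff_odd).mp h
  have hk : 9 < Nat.card k := by
    obtain ⟨m, hm⟩ := hlq
    rw [Nat.odd_iff] at hodd
    have hlo := (Nat.Prime.eq_two_or_odd hl).resolve_left hl2
    have hm2 : m ≠ 1 := by
      rintro rfl
      omega
    have hm0 : m ≠ 0 := by
      rintro rfl
      omega
    have h2m : 2 ≤ m := by omega
    have h3 : 7 * 2 ≤ l * m := Nat.mul_le_mul h7 h2m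
    omega
  obtain ⟨σ, δ, τ, hσ, hδ, hτ, n1, n2, n3, n4, n5, n6, m1, m2, m3, m4⟩ := exists_constants hk
  obtain ⟨u, hu, ho, hirr⟩ := exists_u hl hlq
    {(σ - δ + τ) / 2, (-σ + δ + τ) / 2, (σ + δ - τ) / 2, (-σ - δ - τ) / 2,
      (σ ^ 2 * δ ^ 2 + δ ^ 2 * τ ^ 2 + τ ^ 2 * σ ^ 2) / (4 * σ * δ * τ)}
    (lt_of_le_of_lt Finset.card_le_five (by omega)) hl2 N
  refine ⟨_, _, _, _, ?_, special h2 ho hσ hδ hτ n1 n2 n3 n4 n5 n6 m1 m2 m3 m4
    (hirr _ ?_) (hirr _ ?_) (hirr _ ?_) (hirr _ ?_) (hirr _ ?_)⟩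
  · rw [natDegree_add_C]; exact hu
  all_goals simp

end Quad

end Pool.Agent.BSDFF.Two
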