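import Pool.Agent.Lib.MP_48b749_nt.Two.Bound
import Pool.Agent.Lib.MP_48b749_nt.Two.Curve2

/-!
# Multiplicative reduction at infinity for `y ^ 2 = x ^ 3 + a x ^ 2 + b x`
-/

set_option autoImplicit false

open Polynomial WithZero Multiplicative

namespace Pool.Agent.BSDFF.Two

open Pool.Agent.Lib.MP_48b749_nt.Loc WeierstrassCurve

variable {k : Type} [Field k] [Finite k]

/-- multiplicative reduction at infinity when `a ^ 2 - 4 b` has small degree -/
theorem locTwo_infty_mult (h2 : (2 : k) ≠ 0) {a b : k[X]} {N : ℕ} (ha : a.natDegree ≤ 2 * N)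
    (hb : b.natDegree = 4 * N) (hD0 : a ^ 2 - 4 * b ≠ 0)
    (hD : (a ^ 2 - 4 * b).natDegree < 4 * N) :
    locTwo (placeInfty k).ring (curve a b) = 1 + X := by
  have hfin := residue_finite_infty (k := k)
  have h16 : (16 : k) ≠ 0 := by
    have : (16 : k) = 2 ^ 4 := by norm_num
    rw [this]; exact pow_ne_zero _ h2
  have hb0 : b ≠ 0 := by
    rintro rfl
    rw [natDegree_zero] at hb
    omega
  have hdc : (a ^ 2 - 3 * b).natDegree = 4 * N := by
    have h1 : a ^ 2 - 3 * b = (a ^ 2 - 4 * b) + b := by ring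
    rw [h1, natDegree_add_eq_right_of_natDegree_lt, hb]
    rw [hb]; exact hD
  have hXN : (RatFunc.X : RatFunc k) ^ N ≠ 0 := pow_ne_zero _ RatFunc.X_ne_zero
  have hXinv : ∀ j : ℕ, ((RatFunc.X : RatFunc k) ^ N)⁻¹ ^ j ≠ 0 := fun j =>
    pow_ne_zero _ (inv_ne_zero hXN)
  have hdX : ∀ j : ℕ, (((RatFunc.X : RatFunc k) ^ N)⁻¹ ^ j).intDegree = -((j * N : ℕ) : ℤ) := by
    intro j
    rw [inv_pow, ← pow_mul, RatFunc.intDegree_inv, ← RatFunc.algebraMap_X, ← map_pow,
      RatFunc.intDegree_polynomial, natDegree_X_pow, mul_comm N j]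
  have hval : ∀ (j : ℕ) (f : k[X]), f ≠ 0 →
      vv (placeInfty k).ring ((RatFunc.X ^ N)⁻¹ ^ j * algebraMap k[X] (RatFunc k) f) =
        exp ((f.natDegree : ℤ) - (j * N : ℕ)) := by
    intro j f hf
    have hf' : algebraMap k[X] (RatFunc k) f ≠ 0 := fun h =>
      hf ((FaithfulSMul.algebraMap_eq_zero_iff _ _).mp h)
    rw [vv_infty _ (mul_ne_zero (hXinv j) hf'), RatFunc.intDegree_mul (hXinv j) hf', hdX,
      RatFunc.intDegree_polynomial]
    congr 1
    ring
  have hmem : ∀ (j : ℕ) (f : k[X]), f.natDegree ≤ j * N →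
      (RatFunc.X ^ N)⁻¹ ^ j * algebraMap k[X] (RatFunc k) f ∈ (placeInfty k).ring := by
    intro j f hf
    rw [mem_placeInfty_iff]
    by_cases hf0 : f = 0
    · left; rw [hf0, map_zero, mul_zero]
    · right
      have hf' : algebraMap k[X] (RatFunc k) f ≠ 0 := fun h =>
        hf0 ((FaithfulSMul.algebraMap_eq_zero_iff _ _).mp h)
      rw [RatFunc.intDegree_mul (hXinv j) hf', hdX, RatFunc.intDegree_polynomial]
      omega
  let D : WeierstrassCurve.VariableChange (RatFunc k) := ⟨Units.mk0 (RatFunc.X ^ N) hXN, 0, 0, 0⟩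
  have hu : ((D.u⁻¹ : (RatFunc k)ˣ) : RatFunc k) = (RatFunc.X ^ N)⁻¹ := by
    simp [D]
  have hma : (RatFunc.X ^ N)⁻¹ ^ 2 * algebraMap k[X] (RatFunc k) a ∈ (placeInfty k).ring :=
    hmem 2 _ (by omega)
  have hmb : (RatFunc.X ^ N)⁻¹ ^ 4 * algebraMap k[X] (RatFunc k) b ∈ (placeInfty k).ring :=
    hmem 4 b (by omega)
  let I : WeierstrassCurve (placeInfty k).ring := ⟨0, ⟨_, hma⟩, 0, ⟨_, hmb⟩, 0⟩
  have hI : I.map (algebraMap (placeInfty k).ring (RatFunc k)) = D • curve a b := by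
    ext
    · rw [WeierstrassCurve.variableChange_a₁]; simp [D, I, curve]
    · rw [WeierstrassCurve.variableChange_a₂, hu]
      change (RatFunc.X ^ N)⁻¹ ^ 2 * algebraMap k[X] (RatFunc k) a = _
      simp [D, curve]
    · rw [WeierstrassCurve.variableChange_a₃]; simp [D, I, curve]
    · rw [WeierstrassCurve.variableChange_a₄, hu]
      change (RatFunc.X ^ N)⁻¹ ^ 4 * algebraMap k[X] (RatFunc k) b = _
      simp [D, curve]
    · rw [WeierstrassCurve.variableChange_a₆]; simp [D, I, curve]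
  have hΔv : vv (placeInfty k).ring (algebraMap (placeInfty k).ring (RatFunc k) I.Δ) =
      exp (((a ^ 2 - 4 * b).natDegree : ℤ) - 4 * N) := by
    have h1 : algebraMap (placeInfty k).ring (RatFunc k) I.Δ = (D • curve a b).Δ := by
      rw [← hI, WeierstrassCurve.map_Δ]
    have hP1 : (16 * b ^ 2 : k[X]) ≠ 0 :=
      mul_ne_zero (isUnit_sixteen h2).ne_zero (pow_ne_zero 2 hb0)
    have hP : (16 * b ^ 2 * (a ^ 2 - 4 * b) : k[X]).natDegree =
        8 * N + (a ^ 2 - 4 * b).natDegree := by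
      rw [natDegree_mul hP1 hD0, natDegree_ofNat_mul h16, natDegree_pow, hb]
      ring
    rw [h1, WeierstrassCurve.variableChange_Δ, hu, curve_Δ, hval 12 _ (mul_ne_zero hP1 hD0), hP,
      exp_inj]
    push_cast
    ring
  have hcv : vv (placeInfty k).ring (algebraMap (placeInfty k).ring (RatFunc k) I.c₄) = 1 := by
    have h1 : algebraMap (placeInfty k).ring (RatFunc k) I.c₄ = (D • curve a b).c₄ := by
      rw [← hI, WeierstrassCurve.map_c₄]
    have hP : (16 * (a ^ 2 - 3 * b) : k[X]).natDegree = 4 * N := by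
      rw [natDegree_ofNat_mul h16, hdc]
    have hP0 : (16 * (a ^ 2 - 3 * b) : k[X]) ≠ 0 := by
      intro h
      rw [h, natDegree_zero] at hP
      omega
    rw [h1, WeierstrassCurve.variableChange_c₄, hu, curve_c4, hval 4 _ hP0, hP, ← exp_zero,
      exp_inj]
    push_cast
    ring
  have hΔm : I.Δ ∈ IsLocalRing.maximalIdeal (placeInfty k).ring := by
    rw [← val_lt_one_iff (placeInfty k).ring (K := RatFunc k)]
    change vv (placeInfty k).ring _ < 1
    rw [hΔv, ← exp_zero, exp_lt_exp]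
    omega
  have hcm : I.c₄ ∉ IsLocalRing.maximalIdeal (placeInfty k).ring := by
    rw [← val_lt_one_iff (placeInfty k).ring (K := RatFunc k)]
    change ¬ (vv (placeInfty k).ring _ < 1)
    rw [hcv]
    exact lt_irrefl _
  exact (locTwo_of_model (placeInfty k).ring (isUnit_two_place h2 _) (hasTwoTorsion_curve a b)
    (curve_Δ_ne_zero h2 hb0 hD0) I D hI (Or.inr fun h => hcm (Ideal.pow_le_self (by norm_num) h))).2.1
    hΔm hcm

end Pool.Agent.BSDFF.Two
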