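import Pool.Agent.Lib.MP_48b749_nt.Two.Quad
import Pool.Agent.Lib.MP_48b749_nt.LegPoints

/-!
# The rank of the curves of the four parameter family is at least two
-/

set_option autoImplicit false

open Polynomial

namespace Pool.Agent.BSDFF.Two

open Pool.Agent.Lib.MP_48b749_nt.Loc WeierstrassCurve

variable {k : Type} [Field k]

namespace Quad

variable {p q s d : k[X]}

theorem equation_one (p q s d : k[X]) : (curve (qA p q s d) (qB p q s d)).toAffine.Equation
    (algebraMap k[X] (RatFunc k) (p * q)) (algebraMap k[X] (RatFunc k) (s * (p * q))) := by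
  rw [Affine.equation_iff]
  change algebraMap k[X] (RatFunc k) (s * (p * q)) ^ 2 + 0 * algebraMap k[X] (RatFunc k) (p * q) *
      algebraMap k[X] (RatFunc k) (s * (p * q)) + 0 * algebraMap k[X] (RatFunc k) (s * (p * q)) =
    algebraMap k[X] (RatFunc k) (p * q) ^ 3 + algebraMap k[X] (RatFunc k) (qA p q s d) *
      algebraMap k[X] (RatFunc k) (p * q) ^ 2 + algebraMap k[X] (RatFunc k) (qB p q s d) *
      algebraMap k[X] (RatFunc k) (p * q) + 0
  have h : (s * (p * q)) ^ 2 = (p * q) ^ 3 + qA p q s d * (p * q) ^ 2 + qB p q s d * (p * q) := by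
    unfold qA qB; ring
  have h1 := congrArg (algebraMap k[X] (RatFunc k)) h
  simp only [map_pow, map_add, map_mul] at h1 ⊢
  linear_combination h1

theorem equation_two (p q s d : k[X]) : (curve (qA p q s d) (qB p q s d)).toAffine.Equation
    (algebraMap k[X] (RatFunc k) (p * (q - s - d)))
    (algebraMap k[X] (RatFunc k) (d * (p * (q - s - d)))) := by
  rw [Affine.equation_iff]
  change algebraMap k[X] (RatFunc k) (d * (p * (q - s - d))) ^ 2 +
      0 * algebraMap k[X] (RatFunc k) (p * (q - s - d)) *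
      algebraMap k[X] (RatFunc k) (d * (p * (q - s - d))) +
      0 * algebraMap k[X] (RatFunc k) (d * (p * (q - s - d))) =
    algebraMap k[X] (RatFunc k) (p * (q - s - d)) ^ 3 + algebraMap k[X] (RatFunc k) (qA p q s d) *
      algebraMap k[X] (RatFunc k) (p * (q - s - d)) ^ 2 + algebraMap k[X] (RatFunc k) (qB p q s d) *
      algebraMap k[X] (RatFunc k) (p * (q - s - d)) + 0
  have h : (d * (p * (q - s - d))) ^ 2 = (p * (q - s - d)) ^ 3 +
      qA p q s d * (p * (q - s - d)) ^ 2 + qB p q s d * (p * (q - s - d)) := by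
    unfold qA qB; ring
  have h1 := congrArg (algebraMap k[X] (RatFunc k)) h
  simp only [map_pow, map_add, map_mul] at h1 ⊢
  linear_combination h1

theorem equation_zero (a b : k[X]) : (curve a b).toAffine.Equation 0 0 := by
  rw [Affine.equation_iff]
  simp [curve]

/-- a squarefree polynomial which is not a unit is not a square -/
theorem not_isSquare {f : k[X]} (hf : Squarefree f) (hu : ¬ IsUnit f) :
    ¬ IsSquare (algebraMap k[X] (RatFunc k) f) := by
  rintro ⟨y, hy⟩
  obtain ⟨s, hs⟩ := isSquare_of_algebraMap (P := f) (z := y) (by rw [pow_two, ← hy])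
  have h3 : IsUnit s := hf s (by rw [hs])
  exact hu (by rw [hs]; exact h3.mul h3)

variable [DecidableEq (RatFunc k)]

/-- the points of order dividing `2` -/
theorem two_torsion (h2 : (2 : k) ≠ 0) {a b : k[X]}
    (hD : ¬ IsSquare (algebraMap k[X] (RatFunc k) (a ^ 2 - 4 * b))) :
    Finite {P : (curve a b).toAffine.Point // P + P = 0} ∧
      Nat.card {P : (curve a b).toAffine.Point // P + P = 0} ≤ 2 ^ 1 := by
  have h2' := algebraMap_ratfunc_two h2
  have key : ∀ (x y : RatFunc k) (h : (curve a b).toAffine.Nonsingular x y),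
      Affine.Point.some x y h + .some x y h = 0 → x = 0 ∧ y = 0 := by
    intro x y h h5
    have hy : y = 0 := by
      by_contra hy
      have hne : y ≠ (curve a b).toAffine.negY x y := by
        rw [Affine.negY]
        simp only [curve]
        intro h6
        apply hy
        have h7 : 2 * y = 0 := by linear_combination h6
        exact (mul_eq_zero.mp h7).resolve_left h2'
      rw [Affine.Point.add_self_of_Y_ne hne] at h5
      exact Affine.Point.some_ne_zero _ h5
    refine ⟨?_, hy⟩
    have hE := h.1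
    rw [Affine.equation_iff, hy] at hE
    simp only [curve] at hE
    by_contra hx
    apply hD
    have h6 : x * (x ^ 2 + algebraMap k[X] (RatFunc k) a * x + algebraMap k[X] (RatFunc k) b) = 0 := by
      linear_combination -hE
    have h7 := (mul_eq_zero.mp h6).resolve_left hx
    refine ⟨2 * x + algebraMap k[X] (RatFunc k) a, ?_⟩
    rw [map_sub, map_pow, map_mul, map_ofNat]
    linear_combination -4 * h7
  let g : {P : (curve a b).toAffine.Point // P + P = 0} → Option Unit := fun P =>
    match P with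
    | ⟨.zero, _⟩ => none
    | ⟨.some _ _ _, _⟩ => some ()
  have hg : Function.Injective g := by
    rintro ⟨P, hP⟩ ⟨Q, hQ⟩ h
    rcases P with _ | ⟨x, y, hx⟩ <;> rcases Q with _ | ⟨x', y', hx'⟩
    · rfl
    · exact absurd h (by simp [g])
    · exact absurd h (by simp [g])
    · obtain ⟨h6, h7⟩ := key x y hx hP
      obtain ⟨h8, h9⟩ := key x' y' hx' hQ
      subst h6 h7 h8 h9
      rfl
  refine ⟨Finite.of_injective g hg, ?_⟩
  refine (Nat.card_le_card_of_injective g hg).trans ?_
  rw [Finite.card_option, Nat.card_unique, pow_one]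

omit [DecidableEq (RatFunc k)] in
theorem alg_ne {f : k[X]} (hf : f ≠ 0) : algebraMap k[X] (RatFunc k) f ≠ 0 := fun h =>
  hf ((FaithfulSMul.algebraMap_eq_zero_iff _ _).mp h)

/-- the descent map `P ↦ x(P)` -/
noncomputable def qAlpha (a b : k[X]) (hb : b ≠ 0) :
    (curve a b).toAffine.Point →+ SqGrp (RatFunc k) :=
  alphaHom (curve a b) 0 (algebraMap k[X] (RatFunc k) b) rfl rfl
    (by simp [curve]) (by simp [curve]) (alg_ne hb)

theorem qAlpha_some (a b : k[X]) (hb : b ≠ 0) {x y : RatFunc k}
    (h : (curve a b).toAffine.Nonsingular x y) (hx : x ≠ 0) :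
    qAlpha a b hb (.some x y h) = sqClass x := by
  change sqClass (alpha (curve a b) 0 (algebraMap k[X] (RatFunc k) b) (.some x y h)) = sqClass x
  rw [alpha_some, if_neg hx, sub_zero]

theorem qAlpha_zero (a b : k[X]) (hb : b ≠ 0) {y : RatFunc k}
    (h : (curve a b).toAffine.Nonsingular 0 y) :
    qAlpha a b hb (.some 0 y h) = sqClass (algebraMap k[X] (RatFunc k) b) := by
  change sqClass (alpha (curve a b) 0 (algebraMap k[X] (RatFunc k) b) (.some 0 y h)) = _
  rw [alpha_some, if_pos rfl]

omit [DecidableEq (RatFunc k)] in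
/-- the sum of three vectors over a subset -/
theorem sum_three {V : Type} [AddCommGroup V] (v : Fin 3 → V) (S : Finset (Fin 3)) :
    ∑ i ∈ S, v i = (if 0 ∈ S then v 0 else 0) + (if 1 ∈ S then v 1 else 0) +
      (if 2 ∈ S then v 2 else 0) := by
  have h := Finset.sum_ite_mem Finset.univ S v
  rw [Finset.univ_inter] at h
  rw [← h, Fin.sum_univ_three]

/-- **the algebraic side** -/
theorem rank_ge_two (h2 : (2 : k) ≠ 0) (h : Quad p q s d) :
    (2 : Cardinal) ≤ Module.rank ℤ (curve (qA p q s d) (qB p q s d)).toAffine.Point := by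
  classical
  have hΔ := curve_Δ_ne_zero h2 h.b_ne h.D_ne
  have hns : ∀ {x y : RatFunc k}, (curve (qA p q s d) (qB p q s d)).toAffine.Equation x y →
      (curve (qA p q s d) (qB p q s d)).toAffine.Nonsingular x y := fun {x y} h1 =>
    (Affine.equation_iff_nonsingular_of_Δ_ne_zero hΔ).mp h1
  obtain ⟨t1, t2⟩ := two_torsion h2 (a := qA p q s d) (b := qB p q s d)
    (not_isSquare h.iD.squarefree h.iD.not_isUnit)
  let P : Fin 3 → (curve (qA p q s d) (qB p q s d)).toAffine.Point :=
    ![Affine.Point.some _ _ (hns (equation_one p q s d)),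
      Affine.Point.some _ _ (hns (equation_two p q s d)),
      Affine.Point.some 0 0 (hns (equation_zero _ _))]
  -- the classes
  set cl : k[X] → SqGrp (RatFunc k) := fun f => sqClass (algebraMap k[X] (RatFunc k) f) with hcl
  have hmul : ∀ f g : k[X], f ≠ 0 → g ≠ 0 → cl (f * g) = cl f + cl g := by
    intro f g hf hg
    simp only [hcl]
    rw [map_mul, sqClass_mul (alg_ne hf) (alg_ne hg)]
  have p0 := h.ip.ne_zero
  have q0 := h.iq.ne_zero
  have p0' := h.ip'.ne_zero
  have q0' := h.iq'.ne_zero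
  have e0 : qAlpha _ _ h.b_ne (P 0) = cl p + cl q := by
    rw [← hmul p q p0 q0]
    exact qAlpha_some _ _ h.b_ne _ (alg_ne (mul_ne_zero p0 q0))
  have e1 : qAlpha _ _ h.b_ne (P 1) = cl p + cl (q - s - d) := by
    rw [← hmul p _ p0 q0']
    exact qAlpha_some _ _ h.b_ne _ (alg_ne (mul_ne_zero p0 q0'))
  have e2 : qAlpha _ _ h.b_ne (P 2) = cl p + cl q + (cl (p - s + d) + cl (q - s - d)) := by
    rw [← hmul p q p0 q0, ← hmul _ _ p0' q0', ← hmul _ _ (mul_ne_zero p0 q0)
      (mul_ne_zero p0' q0')]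
    exact qAlpha_zero _ _ h.b_ne _
  have hsfb : Squarefree (qB p q s d) := h.sf.squarefree_of_dvd (Dvd.intro _ rfl)
  -- nonvanishing of the class of a divisor of `b`
  have hne : ∀ f : k[X], f ∣ qB p q s d → ¬ IsUnit f → cl f ≠ 0 := by
    intro f hf hu h0
    have hf0 : f ≠ 0 := ne_zero_of_dvd_ne_zero h.b_ne hf
    exact not_isSquare (hsfb.squarefree_of_dvd hf) hu ((sqClass_eq_zero_iff (alg_ne hf0)).mp h0)
  have hnu : ∀ {f g : k[X]}, Irreducible f → ¬ IsUnit (f * g) := fun hf hu =>
    hf.not_isUnit (isUnit_of_mul_isUnit_left hu)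
  have n1 : cl p + cl q ≠ 0 := by
    rw [← hmul p q p0 q0]
    exact hne _ (Dvd.intro _ rfl) (hnu h.ip)
  have n2 : cl p + cl (q - s - d) ≠ 0 := by
    rw [← hmul _ _ p0 q0']
    exact hne _ ⟨q * (p - s + d), by unfold qB; ring⟩ (hnu h.ip)
  have n3 : cl p + cl q + (cl (p - s + d) + cl (q - s - d)) ≠ 0 := by
    rw [← hmul p q p0 q0, ← hmul _ _ p0' q0', ← hmul _ _ (mul_ne_zero p0 q0)
      (mul_ne_zero p0' q0')]
    exact hne _ dvd_rfl (fun hu => hnu h.ip (isUnit_of_mul_isUnit_left hu))
  have n4 : cl q + cl (q - s - d) ≠ 0 := by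
    rw [← hmul _ _ q0 q0']
    exact hne _ ⟨p * (p - s + d), by unfold qB; ring⟩ (hnu h.iq)
  have n5 : cl (p - s + d) + cl (q - s - d) ≠ 0 := by
    rw [← hmul _ _ p0' q0']
    exact hne _ ⟨p * q, by unfold qB; ring⟩ (hnu h.ip')
  have n6 : cl q + cl (p - s + d) ≠ 0 := by
    rw [← hmul _ _ q0 p0']
    exact hne _ ⟨p * (q - s - d), by unfold qB; ring⟩ (hnu h.iq)
  have n7 : cl p + cl (p - s + d) ≠ 0 := by
    rw [← hmul _ _ p0 p0']
    exact hne _ ⟨q * (q - s - d), by unfold qB; ring⟩ (hnu h.ip)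
  have hA := modSq_two (cl p)
  have hB := modSq_two (cl q)
  have hC := modSq_two (cl (p - s + d))
  have hE := modSq_two (cl (q - s - d))
  have hind : ∀ S : Finset (Fin 3), S.Nonempty →
      ∑ i ∈ S, qAlpha _ _ h.b_ne (P i) ≠ 0 := by
    intro S hS
    rw [sum_three, e0, e1, e2]
    generalize cl p = A at *
    generalize cl q = B at *
    generalize cl (p - s + d) = A' at *
    generalize cl (q - s - d) = B' at *
    by_cases h0 : (0 : Fin 3) ∈ S <;> by_cases h1 : (1 : Fin 3) ∈ S <;>
      by_cases h3 : (2 : Fin 3) ∈ S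
    · rw [if_pos h0, if_pos h1, if_pos h3]
      intro h5
      apply n7
      rw [← h5]
      have : A + B + (A + B') + (A + B + (A' + B')) = A + A' + (A + A) + (B + B) + (B' + B') := by
        abel
      rw [this, hA, hB, hE]
      abel
    · rw [if_pos h0, if_pos h1, if_neg h3]
      intro h5
      apply n4
      rw [← h5]
      have : A + B + (A + B') + 0 = B + B' + (A + A) := by abel
      rw [this, hA]
      abel
    · rw [if_pos h0, if_neg h1, if_pos h3]
      intro h5
      apply n5
      rw [← h5]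
      have : A + B + 0 + (A + B + (A' + B')) = A' + B' + (A + A) + (B + B) := by abel
      rw [this, hA, hB]
      abel
    · rw [if_pos h0, if_neg h1, if_neg h3, add_zero, add_zero]
      exact n1
    · rw [if_neg h0, if_pos h1, if_pos h3]
      intro h5
      apply n6
      rw [← h5]
      have : 0 + (A + B') + (A + B + (A' + B')) = B + A' + (A + A) + (B' + B') := by abel
      rw [this, hA, hE]
      abel
    · rw [if_neg h0, if_pos h1, if_neg h3, zero_add, add_zero]
      exact n2
    · rw [if_neg h0, if_neg h1, if_pos h3, zero_add, zero_add]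
      exact n3
    · exfalso
      obtain ⟨i, hi⟩ := hS
      fin_cases i
      · exact h0 hi
      · exact h1 hi
      · exact h3 hi
  have h5 := rank_ge modSq_two (qAlpha _ _ h.b_ne) P hind 1 t1 t2
  simpa using h5

omit [DecidableEq (RatFunc k)] in
/-- Non-constant `j`. -/
theorem j_ne (h2 : (2 : k) ≠ 0) (h : Quad p q s d) (c : k) :
    (curve (qA p q s d) (qB p q s d)).c₄ ^ 3 ≠
      algebraMap k (RatFunc k) c * (curve (qA p q s d) (qB p q s d)).Δ := by
  intro heq
  rw [curve_c4, curve_Δ, IsScalarTower.algebraMap_apply k k[X] (RatFunc k), ← map_pow,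
    ← map_mul] at heq
  have h1 := FaithfulSMul.algebraMap_injective k[X] (RatFunc k) heq
  have hpb : p ∣ qB p q s d := by
    unfold qB
    exact Dvd.dvd.mul_right (Dvd.intro _ rfl) _
  have h3 : p ∣ (16 * (qA p q s d ^ 2 - 3 * qB p q s d)) ^ 3 := by
    rw [h1]
    refine Dvd.dvd.mul_left (Dvd.dvd.mul_right (Dvd.dvd.mul_left ?_ _) _) _
    exact dvd_pow hpb two_ne_zero
  have h4 := h.ip.prime.dvd_of_dvd_pow h3
  have h5 : p ∣ qA p q s d ^ 2 - 3 * qB p q s d := by
    rcases h.ip.prime.dvd_or_dvd h4 with h6 | h6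
    · exact absurd (isUnit_of_dvd_unit h6 (isUnit_sixteen h2)) h.ip.not_isUnit
    · exact h6
  apply h.not_dvd_a h2 h.ip (Or.inl hpb)
  apply h.ip.prime.dvd_of_dvd_pow (n := 2)
  have h7 : p ∣ (qA p q s d ^ 2 - 3 * qB p q s d) + 3 * qB p q s d :=
    dvd_add h5 (Dvd.dvd.mul_left hpb _)
  rwa [sub_add_cancel] at h7

end Quad

end Pool.Agent.BSDFF.Two
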